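import Pool.Agent.W844.DG.Main

set_option autoImplicit false
set_option linter.unusedSectionVars false
set_option linter.unusedVariables false

open Finset

namespace Pool.Agent.W844.DG

theorem choose_hL {α : ℝ} (hα : 2 < α) (hα3 : α < 3) (N : ℕ) :
    ∃ h L : ℕ, 0 < h ∧ 0 < L ∧ h * L ≤ N + 1 ∧
      (h : ℝ) * ∑ r ∈ range (h * L), ((r : ℝ) + 1) ^ (2 - α) ≤ 2 / (3 - α) * L ∧
      ((N : ℝ) + 1) ^ (α - 2) / 4 ≤ (h : ℝ) ^ 2 := by
  obtain ⟨n, hn⟩ : ∃ n : ℝ, n = (N : ℝ) + 1 := ⟨_, rfl⟩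
  have hn1 : 1 ≤ n := by rw [hn]; have := Nat.cast_nonneg (α := ℝ) N; linarith
  have hn0 : 0 < n := by linarith
  obtain ⟨x, hx⟩ : ∃ x : ℝ, x = n ^ ((α - 2) / 2) := ⟨_, rfl⟩
  have hx1 : 1 ≤ x := by rw [hx]; exact Real.one_le_rpow hn1 (by linarith)
  have hxn : x ≤ n := by
    rw [hx]
    calc n ^ ((α - 2) / 2) ≤ n ^ (1 : ℝ) := Real.rpow_le_rpow_of_exponent_le hn1 (by linarith)
      _ = n := Real.rpow_one n
  have hx2 : x ^ 2 = n ^ (α - 2) := by
    rw [hx, ← Real.rpow_natCast, ← Real.rpow_mul hn0.le]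
    congr 1; push_cast; ring
  obtain ⟨h, hh⟩ : ∃ h : ℕ, h = ⌊x⌋₊ := ⟨_, rfl⟩
  have hh1 : 1 ≤ h := by rw [hh]; exact Nat.one_le_floor_iff x |>.2 hx1
  have hhx : (h : ℝ) ≤ x := by rw [hh]; exact Nat.floor_le (by linarith)
  have hhx' : x < h + 1 := by rw [hh]; exact Nat.lt_floor_add_one x
  have hhR : (1 : ℝ) ≤ h := by exact_mod_cast hh1
  have hhN : h ≤ N + 1 := by
    have : (h : ℝ) ≤ (N : ℝ) + 1 := by rw [← hn]; linarith
    exact_mod_cast this
  obtain ⟨L, hL⟩ : ∃ L : ℕ, L = (N + 1) / h := ⟨_, rfl⟩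
  have hL1 : 1 ≤ L := by rw [hL]; exact (Nat.one_le_div_iff (by omega)).2 hhN
  have hhL : h * L ≤ N + 1 := by rw [hL]; exact Nat.mul_div_le _ _
  have hhL' : N + 1 < h * (L + 1) := by
    rw [hL]; exact Nat.lt_mul_div_succ _ (by omega)
  have hLR : (1 : ℝ) ≤ L := by exact_mod_cast hL1
  obtain ⟨M, hM⟩ : ∃ M : ℝ, M = (h : ℝ) * L := ⟨_, rfl⟩
  have hM1 : n / 2 ≤ M := by
    have h1 : n < h * (L + 1) := by
      rw [hn]; exact_mod_cast hhL'
    rw [hM]; nlinarith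
  have hM0 : 0 < M := by linarith
  refine ⟨h, L, by omega, by omega, hhL, ?_, ?_⟩
  · have h1 := S_le hα hα3 (h * L)
    rw [show (((h * L : ℕ) : ℝ)) = M by rw [hM]; push_cast; rfl] at h1
    have ht : 0 < 3 - α := by linarith
    have h2 : M ^ (3 - α) = M * M ^ (2 - α) := by
      rw [show 3 - α = 1 + (2 - α) by ring, Real.rpow_add hM0, Real.rpow_one]
    have h3 : M ^ (2 - α) ≤ 2 * n ^ (2 - α) := by
      calc M ^ (2 - α) ≤ (n / 2) ^ (2 - α) :=
            Real.rpow_le_rpow_of_nonpos (by linarith) hM1 (by linarith)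
        _ = n ^ (2 - α) * (2 : ℝ) ^ (α - 2) := by
            rw [div_eq_mul_inv, Real.mul_rpow hn0.le (by norm_num), Real.inv_rpow (by norm_num),
              ← Real.rpow_neg (by norm_num)]
            congr 2; ring
        _ ≤ n ^ (2 - α) * 2 := by
            refine mul_le_mul_of_nonneg_left ?_ (by positivity)
            calc (2 : ℝ) ^ (α - 2) ≤ (2 : ℝ) ^ (1 : ℝ) :=
                  Real.rpow_le_rpow_of_exponent_le (by norm_num) (by linarith)
              _ = 2 := Real.rpow_one 2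
        _ = _ := by ring
    have h4 : (h : ℝ) ^ 2 * n ^ (2 - α) ≤ 1 := by
      calc (h : ℝ) ^ 2 * n ^ (2 - α) ≤ x ^ 2 * n ^ (2 - α) := by
            refine mul_le_mul_of_nonneg_right ?_ (by positivity)
            exact pow_le_pow_left₀ (by linarith) hhx 2
        _ = 1 := by
            rw [hx2, ← Real.rpow_add hn0]; simp
    have h5 : (h : ℝ) ^ 2 * M ^ (2 - α) ≤ 2 := by
      have h6 : (h : ℝ) ^ 2 * M ^ (2 - α) ≤ (h : ℝ) ^ 2 * (2 * n ^ (2 - α)) :=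
        mul_le_mul_of_nonneg_left h3 (by positivity)
      nlinarith
    calc (h : ℝ) * ∑ r ∈ range (h * L), ((r : ℝ) + 1) ^ (2 - α)
        ≤ h * (M ^ (3 - α) / (3 - α)) := mul_le_mul_of_nonneg_left h1 (by linarith)
      _ = ((h : ℝ) ^ 2 * M ^ (2 - α)) * L / (3 - α) := by rw [h2, hM]; ring
      _ ≤ 2 * L / (3 - α) := by
          refine div_le_div_of_nonneg_right ?_ ht.le
          exact mul_le_mul_of_nonneg_right h5 (by linarith)
      _ = _ := by ring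
  · rw [← hn, ← hx2]
    have : x / 2 ≤ h := by linarith
    have h7 : (x / 2) ^ 2 ≤ (h : ℝ) ^ 2 := pow_le_pow_left₀ (by linarith) this 2
    linarith [h7, show (x / 2) ^ 2 = x ^ 2 / 4 by ring]

theorem Z_pos {α β : ℝ} (hα : 2 < α) (hβ : 0 < β) (N : ℕ) :
    0 < ∑' φ : Cfg N, Real.exp (-(β * en α φ)) := by
  have hs := summ_cfg (show 1 < α by linarith) hβ N
  have s0 : Summable fun φ : Cfg N => Real.exp (-(β * en α φ)) := by
    refine Summable.of_nonneg_of_le (fun φ => (Real.exp_pos _).le) (fun φ => ?_) hs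
    have h1 := Real.exp_pos (-(β * en α φ))
    nlinarith [sq_nonneg (φ.1 0 : ℝ)]
  exact s0.tsum_pos (fun φ => (Real.exp_pos _).le) 0 (Real.exp_pos _)

/-- the constant in the final bound -/
noncomputable def kk (α β : ℝ) : ℝ := 1 / (4 * cc α β (2 / (3 - α)))

theorem kk_pos (α β : ℝ) : 0 < kk α β := by
  unfold kk
  have := cc_pos α β (2 / (3 - α))
  positivity

theorem power_bound {α β : ℝ} (hα : 2 < α) (hα3 : α < 3) (hβ : 0 < β) (N : ℕ) :
    kk α β * ((N : ℝ) + 1) ^ (α - 2) ≤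
      (∑' φ : Cfg N, Real.exp (-(β * en α φ)) * (φ.1 0 : ℝ) ^ 2) /
        ∑' φ : Cfg N, Real.exp (-(β * en α φ)) := by
  obtain ⟨h, L, hh, hL, hN, hS, hx⟩ := choose_hL hα hα3 N
  have ht : 0 < 3 - α := by linarith
  have h1 := main_bound hα hβ (show 0 ≤ 2 / (3 - α) by positivity) N h L hh hL hN hS
  have hZ := Z_pos hα hβ N
  rw [le_div_iff₀ hZ]
  refine le_trans ?_ h1
  refine mul_le_mul_of_nonneg_right ?_ hZ.le
  have hc := cc_pos α β (2 / (3 - α))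
  unfold kk
  rw [div_mul_eq_mul_div, one_mul, div_le_div_iff₀ (by positivity) hc]
  nlinarith

theorem ratio_bound {α β : ℝ} (hα : 2 < α) (hα3 : α < 3) (hβ : 0 < β) (N : ℕ) :
    kk α β * ((N : ℝ) + 1) ^ (α - 2) ≤
      (∑' φ : {φ : ℤ → ℤ // ∀ x : ℤ, (N : ℤ) < |x| → φ x = 0},
              ((φ.1 0 : ℝ)) ^ 2 *
                Real.exp (-β * ∑' p : ℤ × ℤ,
                  (if p.1 = p.2 then (0 : ℝ)
                   else ((|p.1 - p.2| : ℤ) : ℝ) ^ (-α) *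
                     ((φ.1 p.1 : ℝ) - (φ.1 p.2 : ℝ)) ^ 2))) /
          (∑' φ : {φ : ℤ → ℤ // ∀ x : ℤ, (N : ℤ) < |x| → φ x = 0},
              Real.exp (-β * ∑' p : ℤ × ℤ,
                (if p.1 = p.2 then (0 : ℝ)
                 else ((|p.1 - p.2| : ℤ) : ℝ) ^ (-α) *
                   ((φ.1 p.1 : ℝ) - (φ.1 p.2 : ℝ)) ^ 2))) := by
  refine (power_bound hα hα3 hβ N).trans (le_of_eq ?_)
  have h1 : ∀ φ : Cfg N, Real.exp (-(β * en α φ)) * (φ.1 0 : ℝ) ^ 2 =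
      (φ.1 0 : ℝ) ^ 2 * Real.exp (-β * en α φ.1) := fun φ => by
    rw [neg_mul, mul_comm]
  have h2 : ∀ φ : Cfg N, Real.exp (-(β * en α φ)) = Real.exp (-β * en α φ.1) := fun φ => by
    rw [neg_mul]
  rw [tsum_congr h1, tsum_congr h2]
  rfl

theorem deloc {α β : ℝ} (hα : 2 < α) (hα3 : α < 3) (hβ : 0 < β) :
    Filter.Tendsto
        (fun N : ℕ =>
          (∑' φ : {φ : ℤ → ℤ // ∀ x : ℤ, (N : ℤ) < |x| → φ x = 0},
              ((φ.1 0 : ℝ)) ^ 2 *
                Real.exp (-β * ∑' p : ℤ × ℤ,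
                  (if p.1 = p.2 then (0 : ℝ)
                   else ((|p.1 - p.2| : ℤ) : ℝ) ^ (-α) *
                     ((φ.1 p.1 : ℝ) - (φ.1 p.2 : ℝ)) ^ 2))) /
          (∑' φ : {φ : ℤ → ℤ // ∀ x : ℤ, (N : ℤ) < |x| → φ x = 0},
              Real.exp (-β * ∑' p : ℤ × ℤ,
                (if p.1 = p.2 then (0 : ℝ)
                 else ((|p.1 - p.2| : ℤ) : ℝ) ^ (-α) *
                   ((φ.1 p.1 : ℝ) - (φ.1 p.2 : ℝ)) ^ 2))))
        Filter.atTop Filter.atTop := by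
  refine Filter.tendsto_atTop_mono (fun N => ratio_bound hα hα3 hβ N) ?_
  refine Filter.Tendsto.const_mul_atTop (kk_pos α β) ?_
  refine (tendsto_rpow_atTop (show 0 < α - 2 by linarith)).comp ?_
  exact Filter.tendsto_atTop_add_const_right _ _ tendsto_natCast_atTop_atTop

end Pool.Agent.W844.DG
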