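import Mathlib

set_option autoImplicit false
set_option linter.unusedSectionVars false
set_option linter.unusedVariables false

open Finset

namespace Pool.Agent.W844.DG

variable {G : Type*} [AddCommGroup G]

theorem odd_sum_zero (en : G → ℝ) (l : G → ℝ) (hen : ∀ g, en (-g) = en g)
    (hl : ∀ g, l (-g) = -l g) :
    ∑' g, Real.exp (-(en g)) * l g = 0 := by
  have h1 : ∑' g, Real.exp (-(en g)) * l g = ∑' g, Real.exp (-(en (-g))) * l (-g) :=
    ((Equiv.neg G).tsum_eq (fun g => Real.exp (-(en g)) * l g)).symm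
  have h2 : ∀ g, Real.exp (-(en (-g))) * l (-g) = -(Real.exp (-(en g)) * l g) := fun g => by
    rw [hen, hl]; ring
  rw [tsum_congr h2, tsum_neg] at h1
  linarith

theorem shift_sum (en : G → ℝ) (l : G → ℝ) (v : G) (h : ℝ) (hl : ∀ a b, l (a - b) = l a - l b)
    (hv : l v = h)
    (hen : ∀ g, en (-g) = en g) (hl' : ∀ g, l (-g) = -l g)
    (s0 : Summable fun g => Real.exp (-(en g)))
    (s1 : Summable fun g => Real.exp (-(en g)) * l g) :
    HasSum (fun g => Real.exp (-(en (g - v))) * l g) (h * ∑' g, Real.exp (-(en g))) := by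
  have h1 : HasSum (fun g => Real.exp (-(en g)) * l g + h * Real.exp (-(en g)))
      (0 + h * ∑' g, Real.exp (-(en g))) := by
    refine HasSum.add ?_ (s0.hasSum.mul_left h)
    rw [← odd_sum_zero en l hen hl']
    exact s1.hasSum
  rw [zero_add] at h1
  have h2 := (Equiv.subRight v).hasSum_iff.2 h1
  refine h2.congr_fun fun g => ?_
  simp only [Function.comp, Equiv.subRight_apply]
  rw [hl, hv]; ring

theorem shift_sum0 (en : G → ℝ) (v : G)
    (s0 : Summable fun g => Real.exp (-(en g))) :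
    HasSum (fun g => Real.exp (-(en (g - v)))) (∑' g, Real.exp (-(en g))) := by
  have h2 := (Equiv.subRight v).hasSum_iff.2 s0.hasSum
  exact h2

/-- the lower bound for second moments from random shifts -/
theorem cr (en : G → ℝ) (bl : G → G → ℝ) (l : G → ℝ) {Ω : Type*} [Fintype Ω] [Nonempty Ω]
    (V : Ω → G) (h C : ℝ) (hC0 : 0 < C)
    (hl : ∀ a b, l (a - b) = l a - l b)
    (hen : ∀ g, en (-g) = en g) (hl' : ∀ g, l (-g) = -l g)
    (hpol : ∀ g a b, en (g - a) + en (g - b) - en g = en (g - (a + b)) - 2 * bl a b)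
    (hV : ∀ ω, l (V ω) = h)
    (s0 : Summable fun g => Real.exp (-(en g)))
    (s1 : Summable fun g => Real.exp (-(en g)) * l g)
    (s2 : Summable fun g => Real.exp (-(en g)) * (l g) ^ 2)
    (hC : ∑ ω, ∑ ω', Real.exp (2 * bl (V ω) (V ω')) ≤ C * (Fintype.card Ω : ℝ) ^ 2) :
    h ^ 2 / C * ∑' g, Real.exp (-(en g)) ≤ ∑' g, Real.exp (-(en g)) * (l g) ^ 2 := by
  obtain ⟨Z, hZ⟩ : ∃ Z : ℝ, Z = ∑' g, Real.exp (-(en g)) := ⟨_, rfl⟩
  obtain ⟨n, hn⟩ : ∃ n : ℝ, n = (Fintype.card Ω : ℝ) := ⟨_, rfl⟩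
  have hn0 : 0 < n := by rw [hn]; exact_mod_cast Fintype.card_pos
  have hZ0 : 0 ≤ Z := by rw [hZ]; exact tsum_nonneg fun g => (Real.exp_pos _).le
  rw [← hZ]
  rw [← hn] at hC
  obtain ⟨t, ht⟩ : ∃ t : ℝ, t = h / C := ⟨_, rfl⟩
  -- left hand side
  have hL : HasSum (fun g => 2 * t * (1 / n) * ∑ ω, Real.exp (-(en (g - V ω))) * l g)
      (2 * t * (1 / n) * ∑ ω : Ω, h * Z) := by
    refine HasSum.mul_left _ (hasSum_sum fun ω _ => ?_)
    rw [hZ]
    exact shift_sum en l (V ω) h hl (hV ω) hen hl' s0 s1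
  have hR : HasSum (fun g => Real.exp (-(en g)) * (l g) ^ 2 + t ^ 2 * (1 / n) ^ 2 *
        ∑ ω, ∑ ω', Real.exp (2 * bl (V ω) (V ω')) * Real.exp (-(en (g - (V ω + V ω')))))
      (∑' g, Real.exp (-(en g)) * (l g) ^ 2 + t ^ 2 * (1 / n) ^ 2 *
        ∑ ω, ∑ ω', Real.exp (2 * bl (V ω) (V ω')) * Z) := by
    refine HasSum.add s2.hasSum (HasSum.mul_left _ (hasSum_sum fun ω _ => hasSum_sum fun ω' _ => ?_))
    rw [hZ]
    exact (shift_sum0 en _ s0).mul_left _
  have hpt : ∀ g, 2 * t * (1 / n) * ∑ ω, Real.exp (-(en (g - V ω))) * l g ≤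
      Real.exp (-(en g)) * (l g) ^ 2 + t ^ 2 * (1 / n) ^ 2 *
        ∑ ω, ∑ ω', Real.exp (2 * bl (V ω) (V ω')) * Real.exp (-(en (g - (V ω + V ω')))) := by
    intro g
    obtain ⟨F, hF⟩ : ∃ F : ℝ, F = (1 / n) * ∑ ω, Real.exp (en g - en (g - V ω)) := ⟨_, rfl⟩
    have e1 : (1 / n) * ∑ ω, Real.exp (-(en (g - V ω))) * l g =
        Real.exp (-(en g)) * (l g * F) := by
      rw [hF, ← Finset.sum_mul]
      have : ∀ ω, Real.exp (-(en (g - V ω))) =
          Real.exp (-(en g)) * Real.exp (en g - en (g - V ω)) := fun ω => by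
        rw [← Real.exp_add]; congr 1; ring
      rw [Finset.sum_congr rfl fun ω _ => this ω, ← Finset.mul_sum]
      ring
    have e2 : (1 / n) ^ 2 * ∑ ω, ∑ ω', Real.exp (2 * bl (V ω) (V ω')) *
        Real.exp (-(en (g - (V ω + V ω')))) = Real.exp (-(en g)) * F ^ 2 := by
      have : ∀ ω ω', Real.exp (2 * bl (V ω) (V ω')) * Real.exp (-(en (g - (V ω + V ω')))) =
          Real.exp (-(en g)) * (Real.exp (en g - en (g - V ω)) * Real.exp (en g - en (g - V ω'))) :=
        fun ω ω' => by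
        rw [← Real.exp_add, ← Real.exp_add, ← Real.exp_add]
        congr 1
        have := hpol g (V ω) (V ω')
        linarith
      rw [Finset.sum_congr rfl fun ω _ => Finset.sum_congr rfl fun ω' _ => this ω ω']
      simp_rw [← Finset.mul_sum, ← Finset.sum_mul]
      rw [hF]; ring
    have e3 : 2 * t * (1 / n) * ∑ ω, Real.exp (-(en (g - V ω))) * l g =
        2 * t * (Real.exp (-(en g)) * (l g * F)) := by rw [← e1]; ring
    have e4 : t ^ 2 * (1 / n) ^ 2 *
        ∑ ω, ∑ ω', Real.exp (2 * bl (V ω) (V ω')) * Real.exp (-(en (g - (V ω + V ω')))) =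
        t ^ 2 * (Real.exp (-(en g)) * F ^ 2) := by rw [← e2]; ring
    rw [e3, e4]
    have h5 : 0 < Real.exp (-(en g)) := Real.exp_pos _
    nlinarith [mul_nonneg h5.le (sq_nonneg (l g - t * F))]
  have hmain := hasSum_le hpt hL hR
  have e5 : 2 * t * (1 / n) * ∑ ω : Ω, h * Z = 2 * t * h * Z := by
    rw [Finset.sum_const, Finset.card_univ, nsmul_eq_mul, ← hn]
    field_simp
  have e6 : t ^ 2 * (1 / n) ^ 2 * ∑ ω, ∑ ω', Real.exp (2 * bl (V ω) (V ω')) * Z ≤
      t ^ 2 * C * Z := by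
    simp_rw [← Finset.sum_mul]
    calc t ^ 2 * (1 / n) ^ 2 * ((∑ ω, ∑ ω', Real.exp (2 * bl (V ω) (V ω'))) * Z)
        ≤ t ^ 2 * (1 / n) ^ 2 * ((C * n ^ 2) * Z) := by
          refine mul_le_mul_of_nonneg_left (mul_le_mul_of_nonneg_right hC hZ0) (by positivity)
      _ = t ^ 2 * C * Z := by field_simp
  rw [e5] at hmain
  have e7 : 2 * t * h * Z - t ^ 2 * C * Z = h ^ 2 / C * Z := by
    rw [ht]; field_simp; ring
  linarith

end Pool.Agent.W844.DG
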