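import Pool.Agent.W844.DG.Energy

set_option autoImplicit false
set_option linter.unusedSectionVars false
set_option linter.unusedVariables false

open Finset

namespace Pool.Agent.W844.DG

/-- configurations supported in `[-N, N]` -/
def Cfg (N : ℕ) : AddSubgroup (ℤ → ℤ) where
  carrier := {φ | ∀ x : ℤ, (N : ℤ) < |x| → φ x = 0}
  add_mem' := fun {a b} ha hb x hx => by
    simp only [Pi.add_apply]
    rw [ha x hx, hb x hx]; rfl
  zero_mem' := fun x hx => rfl
  neg_mem' := fun {a} ha x hx => by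
    simp only [Pi.neg_apply]
    rw [ha x hx]; rfl

theorem Cfg.fs {N : ℕ} {φ : ℤ → ℤ} (h : φ ∈ Cfg N) : Fs φ := by
  refine (Finset.finite_toSet (Finset.Icc (-(N : ℤ)) N)).subset ?_
  intro x hx
  simp only [Function.mem_support, ne_eq] at hx
  have h1 : ¬ (N : ℤ) < |x| := fun h2 => hx (h x h2)
  rw [not_lt, abs_le] at h1
  simp only [Finset.coe_Icc, Set.mem_Icc]
  exact h1

/-- coordinates -/
def crd (N : ℕ) (φ : ℤ → ℤ) (i : Fin (2 * N + 1)) : ℤ := φ ((i : ℤ) - N)

theorem crd_inj (N : ℕ) : Function.Injective fun φ : Cfg N => crd N φ.1 := by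
  intro φ ψ h
  refine Subtype.ext (funext fun x => ?_)
  by_cases hx : (N : ℤ) < |x|
  · rw [φ.2 x hx, ψ.2 x hx]
  · rw [not_lt, abs_le] at hx
    have h1 : (x + N).toNat < 2 * N + 1 := by omega
    have h2 := congrFun h ⟨(x + N).toNat, h1⟩
    simp only [crd] at h2
    have h3 : (((x + N).toNat : ℕ) : ℤ) - N = x := by
      rw [Int.toNat_of_nonneg (by omega)]; ring
    rwa [h3] at h2

theorem en_lower {α : ℝ} (hα : 1 < α) (N : ℕ) {φ : ℤ → ℤ} (h : φ ∈ Cfg N) :
    ((2 * N + 1 : ℕ) : ℝ) ^ (-α) * ∑ i : Fin (2 * N + 1), (crd N φ i : ℝ) ^ 2 ≤ en α φ := by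
  rw [en_eq]
  unfold bl
  have hinj : Function.Injective fun i : Fin (2 * N + 1) => ((((i : ℕ) : ℤ) - N, (N : ℤ) + 1) : ℤ × ℤ) := by
    intro i j hij
    simp only [Prod.mk.injEq, sub_left_inj, Nat.cast_inj, and_true] at hij
    exact Fin.ext hij
  have hs := summ_bl hα (Cfg.fs h) (Cfg.fs h)
  have h1 := hs.sum_le_tsum (Finset.univ.map ⟨_, hinj⟩) (fun p _ => by
    have := wt_nonneg α (p.1 - p.2)
    exact mul_nonneg this (mul_self_nonneg _))
  rw [Finset.sum_map] at h1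
  refine le_trans ?_ h1
  rw [Finset.mul_sum]
  refine Finset.sum_le_sum fun i _ => ?_
  simp only [Function.Embedding.coeFn_mk]
  have hi : (i : ℕ) < 2 * N + 1 := i.2
  have h2 : φ ((N : ℤ) + 1) = 0 := h _ (by rw [abs_of_nonneg (by positivity)]; omega)
  rw [h2]
  simp only [crd, Int.cast_zero, sub_zero]
  rw [← pow_two]
  refine mul_le_mul_of_nonneg_right ?_ (sq_nonneg _)
  unfold wt
  rw [if_neg (by omega)]
  have h3 : |((i : ℕ) : ℤ) - N - (N + 1)| = (2 * N + 1 : ℕ) - ((i : ℕ) : ℤ) := by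
    rw [abs_of_nonpos (by omega)]; push_cast; ring
  rw [h3]
  have h4 : (0 : ℝ) < (((2 * N + 1 : ℕ) - ((i : ℕ) : ℤ) : ℤ) : ℝ) := by
    have : (0 : ℤ) < (2 * N + 1 : ℕ) - ((i : ℕ) : ℤ) := by omega
    exact_mod_cast this
  refine Real.rpow_le_rpow_of_nonpos h4 ?_ (by linarith)
  have : ((2 * N + 1 : ℕ) : ℤ) - ((i : ℕ) : ℤ) ≤ (2 * N + 1 : ℕ) := by omega
  exact_mod_cast this

theorem summ_gauss {a : ℝ} (ha : 0 < a) : Summable fun n : ℤ => Real.exp (-(a * (n : ℝ) ^ 2)) := by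
  have h1 : Summable fun n : ℕ => Real.exp (-(a * (n : ℝ))) := by
    have := Real.summable_exp_nat_mul_iff.2 (show -a < 0 by linarith)
    refine this.congr fun n => ?_
    congr 1; ring
  have h2 : Summable fun n : ℕ => Real.exp (-(a * (n : ℝ) ^ 2)) := by
    refine Summable.of_nonneg_of_le (fun n => (Real.exp_pos _).le) (fun n => ?_) h1
    refine Real.exp_le_exp.2 ?_
    rcases Nat.eq_zero_or_pos n with h | h
    · subst h; simp
    · have : (1 : ℝ) ≤ n := by exact_mod_cast h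
      nlinarith [mul_le_mul_of_nonneg_left this ha.le]
  refine Summable.of_nat_of_neg ?_ ?_
  · exact h2.congr fun n => by simp
  · exact h2.congr fun n => by simp

theorem summ_prod {g : ℤ → ℝ} (h0 : ∀ n, 0 ≤ g n) (hg : Summable g) (d : ℕ) :
    Summable fun v : Fin d → ℤ => ∏ i, g (v i) := by
  induction d with
  | zero => exact Summable.of_finite
  | succ d ih =>
    have h1 : Summable fun q : ℤ × (Fin d → ℤ) => g q.1 * ∏ i, g (q.2 i) :=
      Summable.mul_of_nonneg (f := g) (g := fun v : Fin d → ℤ => ∏ i, g (v i)) hg ih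
        (fun n => h0 n) (fun v => Finset.prod_nonneg (fun i _ => h0 (v i)))
    have hinj : Function.Injective fun v : Fin (d + 1) → ℤ =>
        ((v 0, fun i => v (Fin.succ i)) : ℤ × (Fin d → ℤ)) := by
      intro v w h
      simp only [Prod.mk.injEq] at h
      funext i
      refine Fin.cases h.1 (fun j => ?_) i
      exact congrFun h.2 j
    have h2 := h1.comp_injective hinj
    refine h2.congr fun v => ?_
    rw [Fin.prod_univ_succ]
    rfl

theorem summ_cfg {α : ℝ} (hα : 1 < α) {β : ℝ} (hβ : 0 < β) (N : ℕ) :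
    Summable fun φ : Cfg N => Real.exp (-(β * en α φ)) * (1 + (φ.1 0 : ℝ) ^ 2) := by
  set c : ℝ := β * ((2 * N + 1 : ℕ) : ℝ) ^ (-α) with hc
  have hc0 : 0 < c := by positivity
  have h1 := (summ_prod (fun n => (Real.exp_pos _).le) (summ_gauss (show 0 < c / 2 by linarith))
    (2 * N + 1)).comp_injective (crd_inj N)
  have h2 := h1.mul_left (1 + 2 / c)
  refine Summable.of_nonneg_of_le (fun φ => by positivity) (fun φ => ?_) h2
  set Q : ℝ := ∑ i : Fin (2 * N + 1), (crd N φ.1 i : ℝ) ^ 2 with hQ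
  have hlow : c * Q ≤ β * en α φ := by
    rw [hc, mul_assoc]
    exact mul_le_mul_of_nonneg_left (en_lower hα N φ.2) hβ.le
  have h0Q : (φ.1 0 : ℝ) ^ 2 ≤ Q := by
    have := Finset.single_le_sum (f := fun i : Fin (2 * N + 1) => (crd N φ.1 i : ℝ) ^ 2)
      (fun i _ => sq_nonneg _) (Finset.mem_univ ⟨N, by omega⟩)
    have e : crd N φ.1 ⟨N, by omega⟩ = φ.1 0 := by simp [crd]
    simp only [e] at this
    exact this
  have hQ0 : 0 ≤ Q := Finset.sum_nonneg fun i _ => sq_nonneg _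
  have hprod : (∏ i : Fin (2 * N + 1), Real.exp (-(c / 2 * (crd N φ.1 i : ℝ) ^ 2))) =
      Real.exp (-(c / 2 * Q)) := by
    rw [← Real.exp_sum, hQ, Finset.mul_sum, Finset.sum_neg_distrib]
  simp only [Function.comp]
  rw [hprod]
  have e1 : c / 2 * Q ≤ Real.exp (c / 2 * Q) := by
    have := Real.add_one_le_exp (c / 2 * Q)
    linarith
  have e2 : 1 + (φ.1 0 : ℝ) ^ 2 ≤ (1 + 2 / c) * Real.exp (c / 2 * Q) := by
    have e3 : (1 : ℝ) ≤ Real.exp (c / 2 * Q) := Real.one_le_exp (by positivity)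
    have e4 : Q ≤ 2 / c * Real.exp (c / 2 * Q) := by
      have : Q = 2 / c * (c / 2 * Q) := by field_simp
      calc Q = 2 / c * (c / 2 * Q) := this
        _ ≤ _ := mul_le_mul_of_nonneg_left e1 (by positivity)
    linarith
  calc Real.exp (-(β * en α φ)) * (1 + (φ.1 0 : ℝ) ^ 2)
      ≤ Real.exp (-(c * Q)) * ((1 + 2 / c) * Real.exp (c / 2 * Q)) := by
        refine mul_le_mul (Real.exp_le_exp.2 (by linarith)) e2 (by positivity) (Real.exp_pos _).le
    _ = (1 + 2 / c) * (Real.exp (-(c * Q)) * Real.exp (c / 2 * Q)) := by ring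
    _ = (1 + 2 / c) * Real.exp (-(c / 2 * Q)) := by
        rw [← Real.exp_add]; congr 2; ring

end Pool.Agent.W844.DG
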