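import Mathlib

set_option autoImplicit false
set_option linter.unusedSectionVars false
set_option linter.unusedVariables false

open Finset

namespace Pool.Agent.W844.DG

/-- distance of natural numbers -/
def dd (i j : ℕ) : ℕ := (i - j) + (j - i)

theorem dist_sum (f : ℕ → ℝ) (hf : ∀ n, 0 ≤ f n) (h j : ℕ) (hj : j < h) :
    ∑ i ∈ range h, f (dd i j) ≤ 2 * ∑ d ∈ range h, f d := by
  have h1 : ∑ i ∈ range h, f (dd i j) =
      ∑ i ∈ range (j + 1), f (dd i j) + ∑ i ∈ Finset.Ico (j + 1) h, f (dd i j) := by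
    rw [Finset.sum_range_add_sum_Ico _ (by omega)]
  have h2 : ∑ i ∈ range (j + 1), f (dd i j) = ∑ d ∈ range (j + 1), f d := by
    rw [← Finset.sum_range_reflect]
    refine Finset.sum_congr rfl fun i hi => ?_
    have := Finset.mem_range.1 hi
    congr 1
    unfold dd
    omega
  have h3 : ∑ i ∈ Finset.Ico (j + 1) h, f (dd i j) ≤ ∑ d ∈ range h, f d := by
    rw [Finset.sum_Ico_eq_sum_range]
    have h4 : ∑ k ∈ range (h - (j + 1)), f (dd (j + 1 + k) j) =
        ∑ k ∈ range (h - (j + 1)), f (k + 1) := by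
      refine Finset.sum_congr rfl fun k _ => ?_
      congr 1
      unfold dd
      omega
    rw [h4]
    have h5 := Finset.sum_range_succ' f (h - (j + 1))
    have h6 : ∑ d ∈ range (h - (j + 1) + 1), f d ≤ ∑ d ∈ range h, f d :=
      Finset.sum_le_sum_of_subset_of_nonneg (Finset.range_subset_range.2 (by omega))
        (fun i _ _ => hf i)
    have := hf 0
    linarith
  have h7 : ∑ d ∈ range (j + 1), f d ≤ ∑ d ∈ range h, f d :=
    Finset.sum_le_sum_of_subset_of_nonneg (Finset.range_subset_range.2 (by omega))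
      (fun i _ _ => hf i)
  rw [h1, h2]
  linarith

theorem cell_sum (a : ℕ → ℝ) (ha : Antitone a) (L h : ℕ) :
    (L : ℝ) * ∑ d ∈ range (h + 1), a (d * L) ≤ L * a 0 + ∑ r ∈ range (h * L), a r := by
  induction h with
  | zero => simp
  | succ h ih =>
    rw [Finset.sum_range_succ _ (h + 1), mul_add, add_mul, one_mul,
      Finset.sum_range_add a (h * L) L]
    have h1 : (L : ℝ) * a (h * L + L) ≤ ∑ x ∈ range L, a (h * L + x) := by
      calc (L : ℝ) * a (h * L + L) = ∑ x ∈ range L, a (h * L + L) := by simp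
        _ ≤ _ := Finset.sum_le_sum fun x hx => ha (by
            have := Finset.mem_range.1 hx
            omega)
    linarith

theorem cell_double (g : ℕ → ℝ) (h L : ℕ) :
    ∑ j ∈ range h, ∑ u ∈ range L, g (j * L + u) = ∑ s ∈ range (h * L), g s := by
  induction h with
  | zero => simp
  | succ h ih => rw [Finset.sum_range_succ, ih, add_mul, one_mul, Finset.sum_range_add]

/-- pointwise bound for a spread out family -/
theorem spread_bound (a : ℕ → ℝ) (ha : Antitone a) (ha0 : ∀ n, 0 ≤ a n) (h L : ℕ) (hL : 0 < L)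
    (ω : ℕ → ℕ) (hω : ∀ i, ω i < L) (s' : ℕ) (hs' : s' < h * L) :
    (L : ℝ) * ∑ i ∈ range h, a (dd (i * L + ω i) s') ≤
      4 * L * a 0 + 2 * ∑ r ∈ range (h * L), a r := by
  obtain ⟨b, hb⟩ : ∃ b : ℕ → ℝ, b = fun d => if d = 0 then a 0 else a ((d - 1) * L) := ⟨_, rfl⟩
  have hb0 : ∀ d, 0 ≤ b d := fun d => by
    rw [hb]; simp only
    split_ifs
    · exact ha0 _
    · exact ha0 _
  have hj0' : s' / L < h := Nat.div_lt_of_lt_mul (by rwa [mul_comm])
  have hdiv' := Nat.div_add_mod s' L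
  have hmod' := Nat.mod_lt s' hL
  obtain ⟨q, m, hj0, hdiv, hmod⟩ : ∃ q m : ℕ, q < h ∧ L * q + m = s' ∧ m < L :=
    ⟨_, _, hj0', hdiv', hmod'⟩
  clear hj0' hdiv' hmod'
  have h1 : ∀ i, a (dd (i * L + ω i) s') ≤ b (dd i q) := by
    intro i
    rw [hb]
    simp only
    split_ifs with h0
    · exact ha (Nat.zero_le _)
    · refine ha ?_
      have hi := hω i
      rcases lt_trichotomy i q with hlt | heq | hgt
      · obtain ⟨d, hd⟩ : ∃ d, q = i + d + 1 := ⟨q - i - 1, by omega⟩
        have e1 : dd i q - 1 = d := by unfold dd; omega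
        rw [e1]
        rw [hd] at hdiv
        have e2 : L * (i + d + 1) = i * L + d * L + L := by ring
        rw [e2] at hdiv
        unfold dd
        omega
      · exact absurd (by unfold dd; omega) h0
      · obtain ⟨d, hd⟩ : ∃ d, i = q + d + 1 := ⟨i - q - 1, by omega⟩
        have e1 : dd i q - 1 = d := by unfold dd; omega
        rw [e1]
        have e2 : i * L = L * q + d * L + L := by
          conv_lhs => rw [hd]
          ring
        unfold dd
        omega
  have h2 : ∑ i ∈ range h, a (dd (i * L + ω i) s') ≤ 2 * ∑ d ∈ range h, b d :=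
    (Finset.sum_le_sum fun i _ => h1 i).trans (dist_sum b hb0 h _ hj0)
  obtain ⟨h', rfl⟩ : ∃ h', h = h' + 1 := ⟨h - 1, by omega⟩
  have h3 : ∑ d ∈ range (h' + 1), b d = ∑ d ∈ range h', a (d * L) + a 0 := by
    rw [Finset.sum_range_succ', hb]
    simp
  have h4 := cell_sum a ha L h'
  rw [Finset.sum_range_succ] at h4
  have h5 : ∑ r ∈ range (h' * L), a r ≤ ∑ r ∈ range ((h' + 1) * L), a r :=
    Finset.sum_le_sum_of_subset_of_nonneg (Finset.range_subset_range.2 (by nlinarith))
      (fun i _ _ => ha0 i)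
  have hL0 : (0 : ℝ) < L := by exact_mod_cast hL
  have h6 : 0 ≤ (L : ℝ) * a (h' * L) := mul_nonneg hL0.le (ha0 _)
  calc (L : ℝ) * ∑ i ∈ range (h' + 1), a (dd (i * L + ω i) s')
      ≤ L * (2 * ∑ d ∈ range (h' + 1), b d) := mul_le_mul_of_nonneg_left h2 hL0.le
    _ = 2 * (L * ∑ d ∈ range h', a (d * L)) + 2 * (L * a 0) := by rw [h3]; ring
    _ ≤ _ := by nlinarith

theorem exp_lin {x C : ℝ} (hx : 0 ≤ x) (hxC : x ≤ C) : Real.exp x ≤ 1 + Real.exp C * x := by
  have h1 := Real.add_one_le_exp (-x)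
  have h2 : Real.exp x * Real.exp (-x) = 1 := by rw [← Real.exp_add]; simp
  have h3 : 0 < Real.exp x := Real.exp_pos x
  have h4 : Real.exp x ≤ Real.exp C := Real.exp_le_exp.2 hxC
  have h5 := mul_le_mul_of_nonneg_left h1 h3.le
  have h6 := mul_le_mul_of_nonneg_right h4 hx
  nlinarith

/-- exponential moment of an independent family -/
theorem exp_moment (g : ℕ → ℝ) (h L : ℕ) (hL : 0 < L) (C : ℝ)
    (hg0 : ∀ s, s < h * L → 0 ≤ g s) (hgC : ∀ s, s < h * L → g s ≤ C) :
    ∑ ω : Fin h → Fin L, Real.exp (∑ j : Fin h, g (j * L + ω j)) ≤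
      (L : ℝ) ^ h * Real.exp (Real.exp C / L * ∑ s ∈ range (h * L), g s) := by
  have hL0 : (0 : ℝ) < L := by exact_mod_cast hL
  have h1 : ∑ ω : Fin h → Fin L, Real.exp (∑ j : Fin h, g (j * L + ω j)) =
      ∏ j : Fin h, ∑ u : Fin L, Real.exp (g (j * L + u)) := by
    rw [Finset.prod_univ_sum, Fintype.piFinset_univ]
    refine Finset.sum_congr rfl fun ω _ => ?_
    rw [Real.exp_sum]
  have hin : ∀ (j : Fin h) (u : Fin L), (j : ℕ) * L + u < h * L := by
    intro j u
    have hj := j.2
    have hu := u.2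
    have : ((j : ℕ) + 1) * L ≤ h * L := Nat.mul_le_mul_right _ hj
    rw [add_mul, one_mul] at this
    omega
  have h2 : ∀ j : Fin h, ∑ u : Fin L, Real.exp (g (j * L + u)) ≤
      L * Real.exp (Real.exp C / L * ∑ u : Fin L, g (j * L + u)) := by
    intro j
    calc ∑ u : Fin L, Real.exp (g (j * L + u)) ≤
        ∑ u : Fin L, (1 + Real.exp C * g (j * L + u)) :=
          Finset.sum_le_sum fun u _ => exp_lin (hg0 _ (hin j u)) (hgC _ (hin j u))
      _ = L * (Real.exp C / L * ∑ u : Fin L, g (j * L + u) + 1) := by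
          rw [Finset.sum_add_distrib, ← Finset.mul_sum]
          simp only [Finset.sum_const, Finset.card_univ, Fintype.card_fin, nsmul_eq_mul, mul_one]
          field_simp
          ring
      _ ≤ _ := mul_le_mul_of_nonneg_left (Real.add_one_le_exp _) hL0.le
  rw [h1]
  calc ∏ j : Fin h, ∑ u : Fin L, Real.exp (g (j * L + u))
      ≤ ∏ j : Fin h, (L * Real.exp (Real.exp C / L * ∑ u : Fin L, g (j * L + u))) :=
        Finset.prod_le_prod (fun j _ => Finset.sum_nonneg fun u _ => (Real.exp_pos _).le)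
          (fun j _ => h2 j)
    _ = _ := by
      rw [Finset.prod_mul_distrib, ← Real.exp_sum, ← Finset.mul_sum, ← cell_double g h L,
        Finset.sum_range]
      simp only [Finset.prod_const, Finset.card_univ, Fintype.card_fin, Finset.sum_range]

end Pool.Agent.W844.DG
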