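import Mathlib

set_option autoImplicit false
set_option linter.unusedSectionVars false
set_option linter.unusedVariables false

open Finset

namespace Pool.Agent.W844.DG

/-- the coupling at displacement `k` -/
noncomputable def wt (α : ℝ) (k : ℤ) : ℝ := if k = 0 then 0 else ((|k| : ℤ) : ℝ) ^ (-α)

theorem wt_nonneg (α : ℝ) (k : ℤ) : 0 ≤ wt α k := by
  unfold wt
  split_ifs
  · exact le_rfl
  · positivity

theorem wt_neg (α : ℝ) (k : ℤ) : wt α (-k) = wt α k := by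
  unfold wt
  simp

theorem wt_summable {α : ℝ} (hα : 1 < α) : Summable (wt α) := by
  refine Summable.of_nonneg_of_le (wt_nonneg α) (fun k => ?_) (Real.summable_abs_int_rpow hα)
  unfold wt
  split_ifs
  · positivity
  · rw [Int.cast_abs]

/-- the bilinear energy -/
noncomputable def bl (α : ℝ) (φ ψ : ℤ → ℤ) : ℝ :=
  ∑' p : ℤ × ℤ, wt α (p.1 - p.2) * (((φ p.1 : ℝ) - φ p.2) * ((ψ p.1 : ℝ) - ψ p.2))

/-- the energy -/
noncomputable def en (α : ℝ) (φ : ℤ → ℤ) : ℝ :=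
  ∑' p : ℤ × ℤ, (if p.1 = p.2 then (0 : ℝ)
    else ((|p.1 - p.2| : ℤ) : ℝ) ^ (-α) * ((φ p.1 : ℝ) - (φ p.2 : ℝ)) ^ 2)

theorem en_eq (α : ℝ) (φ : ℤ → ℤ) : en α φ = bl α φ φ := by
  unfold en bl wt
  refine tsum_congr fun p => ?_
  by_cases h : p.1 = p.2
  · simp [h]
  · rw [if_neg h, if_neg (sub_ne_zero.2 h)]
    ring

/-- finitely supported functions -/
def Fs (φ : ℤ → ℤ) : Prop := (Function.support φ).Finite

theorem Fs.add {φ ψ : ℤ → ℤ} (h : Fs φ) (h' : Fs ψ) : Fs (φ + ψ) :=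
  (h.union h').subset (Function.support_add φ ψ)

theorem Fs.neg {φ : ℤ → ℤ} (h : Fs φ) : Fs (-φ) := by
  unfold Fs; rwa [Function.support_neg]

theorem Fs.sub {φ ψ : ℤ → ℤ} (h : Fs φ) (h' : Fs ψ) : Fs (φ - ψ) := by
  rw [sub_eq_add_neg]; exact h.add h'.neg

theorem summ_one {α : ℝ} (hα : 1 < α) {φ : ℤ → ℤ} (h : Fs φ) :
    Summable fun p : ℤ × ℤ => wt α (p.1 - p.2) * (φ p.1 : ℝ) ^ 2 := by
  have h1 : Summable fun x : ℤ => (φ x : ℝ) ^ 2 := by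
    refine summable_of_hasFiniteSupport (h.subset ?_)
    intro x hx
    simp only [Function.mem_support, ne_eq] at hx ⊢
    intro h0
    exact hx (by simp [h0])
  have h2 : Summable fun q : ℤ × ℤ => (φ q.1 : ℝ) ^ 2 * wt α q.2 :=
    h1.mul_of_nonneg (wt_summable hα) (fun x => sq_nonneg _) (wt_nonneg α)
  let e : ℤ × ℤ ≃ ℤ × ℤ :=
    { toFun := fun p => (p.1, p.1 - p.2)
      invFun := fun p => (p.1, p.1 - p.2)
      left_inv := fun p => by simp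
      right_inv := fun p => by simp }
  have h3 := (e.summable_iff (f := fun q : ℤ × ℤ => (φ q.1 : ℝ) ^ 2 * wt α q.2)).2 h2
  refine h3.congr fun p => ?_
  simp [e, mul_comm]

theorem summ_two {α : ℝ} (hα : 1 < α) {φ : ℤ → ℤ} (h : Fs φ) :
    Summable fun p : ℤ × ℤ => wt α (p.1 - p.2) * (φ p.2 : ℝ) ^ 2 := by
  have h3 := ((Equiv.prodComm ℤ ℤ).summable_iff
    (f := fun p : ℤ × ℤ => wt α (p.1 - p.2) * (φ p.1 : ℝ) ^ 2)).2 (summ_one hα h)
  refine h3.congr fun p => ?_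
  simp only [Function.comp, Equiv.prodComm_apply, Prod.fst_swap, Prod.snd_swap]
  rw [← wt_neg, neg_sub]

theorem summ_sq {α : ℝ} (hα : 1 < α) {φ : ℤ → ℤ} (h : Fs φ) :
    Summable fun p : ℤ × ℤ => wt α (p.1 - p.2) * ((φ p.1 : ℝ) - φ p.2) ^ 2 := by
  refine Summable.of_nonneg_of_le (fun p => mul_nonneg (wt_nonneg _ _) (sq_nonneg _)) (fun p => ?_)
    (((summ_one hα h).add (summ_two hα h)).mul_left 2)
  have := wt_nonneg α (p.1 - p.2)
  nlinarith [mul_nonneg this (sq_nonneg ((φ p.1 : ℝ) + φ p.2))]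

theorem summ_bl {α : ℝ} (hα : 1 < α) {φ ψ : ℤ → ℤ} (h : Fs φ) (h' : Fs ψ) :
    Summable fun p : ℤ × ℤ =>
      wt α (p.1 - p.2) * (((φ p.1 : ℝ) - φ p.2) * ((ψ p.1 : ℝ) - ψ p.2)) := by
  refine Summable.of_norm_bounded ((summ_sq hα h).add (summ_sq hα h')) (fun p => ?_)
  rw [Real.norm_eq_abs, abs_mul, abs_of_nonneg (wt_nonneg _ _), ← mul_add]
  refine mul_le_mul_of_nonneg_left ?_ (wt_nonneg _ _)
  rw [abs_mul]
  nlinarith [sq_nonneg (|(φ p.1 : ℝ) - φ p.2| - |(ψ p.1 : ℝ) - ψ p.2|),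
    sq_abs ((φ p.1 : ℝ) - φ p.2), sq_abs ((ψ p.1 : ℝ) - ψ p.2),
    sq_nonneg ((φ p.1 : ℝ) - φ p.2), sq_nonneg ((ψ p.1 : ℝ) - ψ p.2)]

theorem bl_add {α : ℝ} (hα : 1 < α) {φ ψ χ : ℤ → ℤ} (h : Fs φ) (h' : Fs ψ) (h'' : Fs χ) :
    bl α (φ + ψ) χ = bl α φ χ + bl α ψ χ := by
  unfold bl
  rw [← (summ_bl hα h h'').tsum_add (summ_bl hα h' h'')]
  refine tsum_congr fun p => ?_
  simp only [Pi.add_apply]
  push_cast
  ring

theorem bl_comm (α : ℝ) (φ ψ : ℤ → ℤ) : bl α φ ψ = bl α ψ φ := by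
  unfold bl
  refine tsum_congr fun p => ?_
  ring

theorem bl_neg (α : ℝ) (φ ψ : ℤ → ℤ) : bl α (-φ) ψ = -bl α φ ψ := by
  unfold bl
  rw [← tsum_neg]
  refine tsum_congr fun p => ?_
  simp only [Pi.neg_apply]
  push_cast
  ring

theorem en_neg (α : ℝ) (φ : ℤ → ℤ) : en α (-φ) = en α φ := by
  rw [en_eq, en_eq, bl_neg, bl_comm, bl_neg, neg_neg]

theorem bl_zero (α : ℝ) (φ : ℤ → ℤ) : bl α 0 φ = 0 := by
  unfold bl
  simp

theorem bl_sum {α : ℝ} (hα : 1 < α) {ι : Type*} (s : Finset ι) (f : ι → ℤ → ℤ) {χ : ℤ → ℤ}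
    (hf : ∀ i ∈ s, Fs (f i)) (h'' : Fs χ) :
    Fs (∑ i ∈ s, f i) ∧ bl α (∑ i ∈ s, f i) χ = ∑ i ∈ s, bl α (f i) χ := by
  classical
  induction s using Finset.induction_on with
  | empty => exact ⟨by simp [Fs], by simp [bl_zero]⟩
  | insert a s ha ih =>
    have h1 := ih fun i hi => hf i (Finset.mem_insert_of_mem hi)
    have h2 := hf a (Finset.mem_insert_self a s)
    rw [Finset.sum_insert ha, Finset.sum_insert ha]
    exact ⟨h2.add h1.1, by rw [bl_add hα h2 h1.1 h'', h1.2]⟩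

theorem en_nonneg (α : ℝ) (φ : ℤ → ℤ) : 0 ≤ en α φ := by
  unfold en
  refine tsum_nonneg fun p => ?_
  split_ifs
  · exact le_rfl
  · positivity

/-- polarisation identity used for shifts -/
theorem en_pol {α : ℝ} (hα : 1 < α) {g a b : ℤ → ℤ} (hg : Fs g) (ha : Fs a) (hb : Fs b) :
    en α (g - a) + en α (g - b) - en α g = en α (g - (a + b)) - 2 * bl α a b := by
  simp only [en_eq]
  unfold bl
  have s1 := summ_bl hα (hg.sub ha) (hg.sub ha)
  have s2 := summ_bl hα (hg.sub hb) (hg.sub hb)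
  have s3 := summ_bl hα hg hg
  have s4 := summ_bl hα (hg.sub (ha.add hb)) (hg.sub (ha.add hb))
  have s5 := summ_bl hα ha hb
  rw [← s1.tsum_add s2, ← (s1.add s2).tsum_sub s3, ← tsum_mul_left, ← s4.tsum_sub (s5.mul_left 2)]
  refine tsum_congr fun p => ?_
  simp only [Pi.sub_apply, Pi.add_apply]
  push_cast
  ring

end Pool.Agent.W844.DG
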