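import Pool.Agent.W844.DG.Final

set_option autoImplicit false
set_option linter.unusedSectionVars false
set_option linter.unusedVariables false

open Finset

namespace Pool.Agent.W844.DG

theorem summ_cfg_site {α : ℝ} (hα : 1 < α) {β : ℝ} (hβ : 0 < β) (N : ℕ) (x : ℤ) :
    Summable fun φ : Cfg N => Real.exp (-(β * en α φ)) * (1 + (φ.1 x : ℝ) ^ 2) := by
  set c : ℝ := β * ((2 * N + 1 : ℕ) : ℝ) ^ (-α) with hc
  have hc0 : 0 < c := by positivity
  have h1 := (summ_prod (fun n => (Real.exp_pos _).le) (summ_gauss (show 0 < c / 2 by linarith))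
    (2 * N + 1)).comp_injective (crd_inj N)
  have h2 := h1.mul_left (1 + 2 / c)
  refine Summable.of_nonneg_of_le (fun φ => by positivity) (fun φ => ?_) h2
  set Q : ℝ := ∑ i : Fin (2 * N + 1), (crd N φ.1 i : ℝ) ^ 2 with hQ
  have hlow : c * Q ≤ β * en α φ := by
    rw [hc, mul_assoc]
    exact mul_le_mul_of_nonneg_left (en_lower hα N φ.2) hβ.le
  have hQ0 : 0 ≤ Q := Finset.sum_nonneg fun i _ => sq_nonneg _
  have h0Q : (φ.1 x : ℝ) ^ 2 ≤ Q := by
    by_cases hx : (N : ℤ) < |x|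
    · rw [φ.2 x hx]; simpa using hQ0
    · rw [not_lt, abs_le] at hx
      have h1 : (x + N).toNat < 2 * N + 1 := by omega
      have := Finset.single_le_sum (f := fun i : Fin (2 * N + 1) => (crd N φ.1 i : ℝ) ^ 2)
        (fun i _ => sq_nonneg _) (Finset.mem_univ ⟨(x + N).toNat, h1⟩)
      have e : crd N φ.1 ⟨(x + N).toNat, h1⟩ = φ.1 x := by
        simp only [crd]
        have h3 : (((x + N).toNat : ℕ) : ℤ) - N = x := by
          rw [Int.toNat_of_nonneg (by omega)]; ring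
        rw [h3]
      simp only [e] at this
      exact this
  have hprod : (∏ i : Fin (2 * N + 1), Real.exp (-(c / 2 * (crd N φ.1 i : ℝ) ^ 2))) =
      Real.exp (-(c / 2 * Q)) := by
    rw [← Real.exp_sum, hQ, Finset.mul_sum, Finset.sum_neg_distrib]
  simp only [Function.comp]
  rw [hprod]
  have e1 : c / 2 * Q ≤ Real.exp (c / 2 * Q) := by
    have := Real.add_one_le_exp (c / 2 * Q)
    linarith
  have e2 : 1 + (φ.1 x : ℝ) ^ 2 ≤ (1 + 2 / c) * Real.exp (c / 2 * Q) := by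
    have e3 : (1 : ℝ) ≤ Real.exp (c / 2 * Q) := Real.one_le_exp (by positivity)
    have e4 : Q ≤ 2 / c * Real.exp (c / 2 * Q) := by
      have : Q = 2 / c * (c / 2 * Q) := by field_simp
      calc Q = 2 / c * (c / 2 * Q) := this
        _ ≤ _ := mul_le_mul_of_nonneg_left e1 (by positivity)
    linarith
  calc Real.exp (-(β * en α φ)) * (1 + (φ.1 x : ℝ) ^ 2)
      ≤ Real.exp (-(c * Q)) * ((1 + 2 / c) * Real.exp (c / 2 * Q)) := by
        refine mul_le_mul (Real.exp_le_exp.2 (by linarith)) e2 (by positivity) (Real.exp_pos _).le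
    _ = (1 + 2 / c) * (Real.exp (-(c * Q)) * Real.exp (c / 2 * Q)) := by ring
    _ = (1 + 2 / c) * Real.exp (-(c / 2 * Q)) := by
        rw [← Real.exp_add]; congr 2; ring

/-- translate -/
def tr (x : ℤ) (φ : ℤ → ℤ) : ℤ → ℤ := fun z => φ (z - x)

theorem bl_tr (α : ℝ) (x : ℤ) (φ ψ : ℤ → ℤ) : bl α (tr x φ) (tr x ψ) = bl α φ ψ := by
  unfold bl
  rw [← ((Equiv.addRight x).prodCongr (Equiv.addRight x)).tsum_eq (fun p : ℤ × ℤ =>
    wt α (p.1 - p.2) * (((tr x φ p.1 : ℝ) - tr x φ p.2) * ((tr x ψ p.1 : ℝ) - tr x ψ p.2)))]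
  refine tsum_congr fun p => ?_
  simp [tr]

theorem summ_exp {α β : ℝ} (hα : 2 < α) (hβ : 0 < β) (N : ℕ) :
    Summable fun φ : Cfg N => Real.exp (-(β * en α φ)) := by
  refine Summable.of_nonneg_of_le (fun φ => (Real.exp_pos _).le) (fun φ => ?_)
    (summ_cfg (show 1 < α by linarith) hβ N)
  have h1 := Real.exp_pos (-(β * en α φ))
  nlinarith [sq_nonneg (φ.1 0 : ℝ)]

theorem summ_sq_inc {α β : ℝ} (hα : 2 < α) (hβ : 0 < β) (N : ℕ) (x y : ℤ) :
    Summable fun φ : Cfg N => Real.exp (-(β * en α φ)) * ((φ.1 x : ℝ) - φ.1 y) ^ 2 := by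
  have hα1 : 1 < α := by linarith
  refine Summable.of_nonneg_of_le (fun φ => by positivity) (fun φ => ?_)
    (((summ_cfg_site hα1 hβ N x).add (summ_cfg_site hα1 hβ N y)).mul_left 2)
  rw [← mul_add, ← mul_assoc, mul_comm 2, mul_assoc]
  refine mul_le_mul_of_nonneg_left ?_ (Real.exp_pos _).le
  nlinarith [sq_nonneg ((φ.1 x : ℝ) + φ.1 y)]

theorem summ_inc {α β : ℝ} (hα : 2 < α) (hβ : 0 < β) (N : ℕ) (x y : ℤ) :
    Summable fun φ : Cfg N => Real.exp (-(β * en α φ)) * ((φ.1 x : ℝ) - φ.1 y) := by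
  refine Summable.of_norm_bounded ((summ_exp hα hβ N).add (summ_sq_inc hα hβ N x y)) (fun φ => ?_)
  rw [Real.norm_eq_abs, abs_mul, abs_of_pos (Real.exp_pos _)]
  have h1 := Real.exp_pos (-(β * en α φ))
  have h2 : |(φ.1 x : ℝ) - φ.1 y| ≤ 1 + ((φ.1 x : ℝ) - φ.1 y) ^ 2 := by
    nlinarith [sq_abs ((φ.1 x : ℝ) - φ.1 y), sq_nonneg (|(φ.1 x : ℝ) - φ.1 y| - 1),
      abs_nonneg ((φ.1 x : ℝ) - φ.1 y)]
  nlinarith [mul_le_mul_of_nonneg_left h2 h1.le]

theorem prof_far (h M : ℕ) (s : Fin h → ℕ) (hs : ∀ j, s j < M) (z : ℤ) (hz : (M : ℤ) ≤ |z|) :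
    prof h s z = 0 := by
  unfold prof
  rw [Finset.sum_apply]
  refine Finset.sum_eq_zero fun j _ => ?_
  unfold ind
  rw [if_neg]
  have := hs j
  omega

theorem main_inc {α β K : ℝ} (hα : 2 < α) (hβ : 0 < β) (hK : 0 ≤ K) (N h L : ℕ) (x y : ℤ)
    (hh : 0 < h) (hL : 0 < L) (hN : |x| + (h * L : ℕ) ≤ N + 1) (hxy : ((h * L : ℕ) : ℤ) ≤ |y - x|)
    (hS : (h : ℝ) * ∑ r ∈ range (h * L), ((r : ℝ) + 1) ^ (2 - α) ≤ K * L) :
    (h : ℝ) ^ 2 / cc α β K * ∑' φ : Cfg N, Real.exp (-(β * en α φ)) ≤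
      ∑' φ : Cfg N, Real.exp (-(β * en α φ)) * ((φ.1 x : ℝ) - φ.1 y) ^ 2 := by
  have hα1 : 1 < α := by linarith
  have hlt : ∀ (ω : Fin h → Fin L) (j : Fin h), (j : ℕ) * L + ω j < h * L := by
    intro ω j
    have hj := j.2
    have hu := (ω j).2
    have : ((j : ℕ) + 1) * L ≤ h * L := Nat.mul_le_mul_right _ hj
    rw [add_mul, one_mul] at this
    omega
  have hmem : ∀ ω : Fin h → Fin L, tr x (prof h fun i => i * L + ω i) ∈ Cfg N := by
    intro ω z hz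
    show prof h (fun i => i * L + ω i) (z - x) = 0
    refine prof_far h (h * L) _ (hlt ω) _ ?_
    have h1 : |z| ≤ |z - x| + |x| := by
      have := abs_add_le (z - x) x
      rwa [sub_add_cancel] at this
    omega
  have : Nonempty (Fin L) := ⟨⟨0, hL⟩⟩
  refine cr (G := Cfg N) (fun φ => β * en α φ) (fun φ ψ => β * bl α φ ψ)
    (fun φ => (φ.1 x : ℝ) - φ.1 y)
    (Ω := Fin h → Fin L)
    (fun ω => ⟨tr x (prof h fun i => i * L + ω i), hmem ω⟩) (h : ℝ) (cc α β K)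
    (cc_pos α β K) ?_ ?_ ?_ ?_ ?_ (summ_exp hα hβ N) (summ_inc hα hβ N x y)
    (summ_sq_inc hα hβ N x y) ?_
  · intro a b
    show (((a.1 - b.1) x : ℤ) : ℝ) - (((a.1 - b.1) y : ℤ) : ℝ) = _
    rw [Pi.sub_apply, Pi.sub_apply]; push_cast; ring
  · intro g
    show β * en α (-g.1) = β * en α g.1
    rw [en_neg]
  · intro g
    show (((-g.1) x : ℤ) : ℝ) - (((-g.1) y : ℤ) : ℝ) = _
    rw [Pi.neg_apply, Pi.neg_apply]; push_cast; ring
  · intro g a b
    show β * en α (g.1 - a.1) + β * en α (g.1 - b.1) - β * en α g.1 =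
      β * en α (g.1 - (a.1 + b.1)) - 2 * (β * bl α a.1 b.1)
    have := en_pol hα1 (Cfg.fs g.2) (Cfg.fs a.2) (Cfg.fs b.2)
    linear_combination β * this
  · intro ω
    show ((prof h (fun i => i * L + ω i) (x - x) : ℤ) : ℝ) -
      ((prof h (fun i => i * L + ω i) (y - x) : ℤ) : ℝ) = h
    rw [prof_far h (h * L) _ (hlt ω) _ hxy, sub_self, prof_zero]; push_cast; ring
  · rw [Fintype.card_fun, Fintype.card_fin, Fintype.card_fin]
    have h1 : ∀ ω : Fin h → Fin L, ∑ ω' : Fin h → Fin L,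
        Real.exp (2 * (β * bl α (tr x (prof h fun i => i * L + ω i))
          (tr x (prof h fun i => i * L + ω' i)))) ≤
        (L : ℝ) ^ h * cc α β K := fun ω => by
      have := overlap hα hβ hK h L hh hL hS ω
      refine le_trans (le_of_eq ?_) this
      refine Finset.sum_congr rfl fun ω' _ => ?_
      rw [bl_tr]
    calc _ ≤ ∑ ω : Fin h → Fin L, (L : ℝ) ^ h * cc α β K := Finset.sum_le_sum fun ω _ => h1 ω
      _ = cc α β K * (((L ^ h : ℕ) : ℝ)) ^ 2 := by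
        rw [Finset.sum_const, Finset.card_univ, Fintype.card_fun, Fintype.card_fin,
          Fintype.card_fin, nsmul_eq_mul]
        push_cast
        ring

theorem mean_inc (α β : ℝ) (N : ℕ) (x y : ℤ) :
    ∑' φ : Cfg N, Real.exp (-(β * en α φ)) * ((φ.1 x : ℝ) - φ.1 y) = 0 := by
  refine odd_sum_zero (G := Cfg N) (fun φ => β * en α φ) (fun φ => (φ.1 x : ℝ) - φ.1 y) ?_ ?_
  · intro g
    show β * en α (-g.1) = β * en α g.1
    rw [en_neg]
  · intro g
    show (((-g.1) x : ℤ) : ℝ) - (((-g.1) y : ℤ) : ℝ) = _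
    rw [Pi.neg_apply, Pi.neg_apply]; push_cast; ring

/-- power lower bound for all increments -/
theorem inc_bound {α β : ℝ} (hα : 2 < α) (hα3 : α < 3) (hβ : 0 < β) (N : ℕ) (x y : ℤ) (r : ℕ)
    (hr : 0 < r) (hN : |x| + r ≤ N + 1) (hxy : (r : ℤ) ≤ |y - x|) :
    kk α β * (r : ℝ) ^ (α - 2) * ∑' φ : Cfg N, Real.exp (-(β * en α φ)) ≤
      ∑' φ : Cfg N, Real.exp (-(β * en α φ)) * ((φ.1 x : ℝ) - φ.1 y) ^ 2 := by
  obtain ⟨r', rfl⟩ : ∃ r', r = r' + 1 := ⟨r - 1, by omega⟩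
  obtain ⟨h, L, hh, hL, hN', hS, hx⟩ := choose_hL hα hα3 r'
  have ht : 0 < 3 - α := by linarith
  have h0 : ((h * L : ℕ) : ℤ) ≤ ((r' + 1 : ℕ) : ℤ) := by exact_mod_cast hN'
  have h1 := main_inc hα hβ (show 0 ≤ 2 / (3 - α) by positivity) N h L x y hh hL
    (by omega) (by omega) hS
  have hZ := Z_pos hα hβ N
  refine le_trans ?_ h1
  refine mul_le_mul_of_nonneg_right ?_ hZ.le
  have hc := cc_pos α β (2 / (3 - α))
  unfold kk
  rw [div_mul_eq_mul_div, one_mul, div_le_div_iff₀ (by positivity) hc]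
  push_cast
  nlinarith

end Pool.Agent.W844.DG
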