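import Pool.Agent.W844.DG.Energy

set_option autoImplicit false
set_option linter.unusedSectionVars false
set_option linter.unusedVariables false

open Finset

namespace Pool.Agent.W844.DG

/-- indicator of `[-s, s]` -/
def ind (s : ℕ) : ℤ → ℤ := fun x => if |x| ≤ (s : ℤ) then 1 else 0

theorem ind_fs (s : ℕ) : Fs (ind s) := by
  refine (Finset.finite_toSet (Finset.Icc (-(s : ℤ)) s)).subset ?_
  intro x hx
  simp only [ind, Function.mem_support, ne_eq, ite_eq_right_iff, one_ne_zero, imp_false,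
    not_not] at hx
  rw [abs_le] at hx
  simp only [Finset.coe_Icc, Set.mem_Icc]
  exact hx

/-- tail of the interaction -/
noncomputable def Gt (α : ℝ) (r : ℕ) : ℝ :=
  ∑' k : ℤ, if (r : ℤ) < |k| then wt α k * (2 * |(k : ℝ)|) else 0

theorem Gt_summ {α : ℝ} (hα : 2 < α) (r : ℕ) :
    Summable fun k : ℤ => if (r : ℤ) < |k| then wt α k * (2 * |(k : ℝ)|) else 0 := by
  have h1 := (Real.summable_abs_int_rpow (show 1 < α - 1 by linarith)).mul_left 2
  refine Summable.of_nonneg_of_le (fun k => ?_) (fun k => ?_) h1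
  · split_ifs
    · have := wt_nonneg α k
      positivity
    · exact le_rfl
  · split_ifs with h
    · have hk : k ≠ 0 := by
        intro h0
        rw [h0] at h
        simp at h
        omega
      have hk0 : 0 < |(k : ℝ)| := abs_pos.2 (by exact_mod_cast hk)
      unfold wt
      rw [if_neg hk, Int.cast_abs]
      have : |(k : ℝ)| ^ (-(α - 1)) = |(k : ℝ)| ^ (-α) * |(k : ℝ)| := by
        rw [show -(α - 1) = -α + 1 by ring, Real.rpow_add hk0, Real.rpow_one]
      rw [this]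
      exact le_of_eq (by ring)
    · positivity

theorem T_le (a b c d : ℤ) (s t : ℤ) :
    (((if |a| ≤ s then (1 : ℤ) else 0 : ℤ) : ℝ) - ((if |b| ≤ s then (1 : ℤ) else 0 : ℤ) : ℝ)) *
      (((if |c| ≤ t then (1 : ℤ) else 0 : ℤ) : ℝ) - ((if |d| ≤ t then (1 : ℤ) else 0 : ℤ) : ℝ)) ≤ 1 := by
  split_ifs <;> norm_num

/-- the set where the indicator changes under a shift by `k` -/
noncomputable def Fk (s : ℕ) (k : ℤ) : Finset ℤ :=
  Finset.Ico (min (-(s : ℤ)) (-s + k)) (max (-(s : ℤ)) (-s + k)) ∪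
    Finset.Ico (min ((s : ℤ) + 1) (s + 1 + k)) (max ((s : ℤ) + 1) (s + 1 + k))

theorem Fk_card (s : ℕ) (k : ℤ) : ((Fk s k).card : ℝ) ≤ 2 * |(k : ℝ)| := by
  have h1 : ((Fk s k).card : ℤ) ≤ 2 * |k| := by
    have := Finset.card_union_le (Finset.Ico (min (-(s : ℤ)) (-s + k)) (max (-(s : ℤ)) (-s + k)))
      (Finset.Ico (min ((s : ℤ) + 1) (s + 1 + k)) (max ((s : ℤ) + 1) (s + 1 + k)))
    rw [Int.card_Ico, Int.card_Ico] at this
    unfold Fk
    rcases abs_cases k with ⟨h, h'⟩ | ⟨h, h'⟩ <;> omega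
  rw [← Int.cast_abs]
  exact_mod_cast h1

theorem ind_diff (s : ℕ) (k x : ℤ) (hx : x ∉ Fk s k) : ind s x = ind s (x - k) := by
  unfold Fk at hx
  rw [Finset.mem_union, Finset.mem_Ico, Finset.mem_Ico] at hx
  unfold ind
  have h1 : (|x| ≤ (s : ℤ)) ↔ (|x - k| ≤ (s : ℤ)) := by
    rw [abs_le, abs_le]
    omega
  by_cases h : |x| ≤ (s : ℤ)
  · rw [if_pos h, if_pos (h1.1 h)]
  · rw [if_neg h, if_neg (fun h' => h (h1.2 h'))]

theorem T_zero (s r : ℕ) (k x : ℤ) (hk : |k| ≤ (r : ℤ)) :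
    ind s x = ind s (x - k) ∨ ind (s + r) x = ind (s + r) (x - k) := by
  unfold ind
  push_cast
  by_cases h : |x| ≤ (s : ℤ)
  · right
    have h1 : |x| ≤ (s : ℤ) + r := by omega
    have h2 : |x - k| ≤ (s : ℤ) + r := by
      rw [abs_le] at h hk ⊢; omega
    rw [if_pos h1, if_pos h2]
  · by_cases h' : |x - k| ≤ (s : ℤ)
    · right
      have h2 : |x - k| ≤ (s : ℤ) + r := by omega
      have h1 : |x| ≤ (s : ℤ) + r := by
        rw [abs_le] at h' hk ⊢; omega
      rw [if_pos h1, if_pos h2]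
    · left
      rw [if_neg h, if_neg h']

theorem bl_ind {α : ℝ} (hα : 2 < α) (s r : ℕ) : bl α (ind s) (ind (s + r)) ≤ Gt α r := by
  have hs := summ_bl (show 1 < α by linarith) (ind_fs s) (ind_fs (s + r))
  let e : ℤ × ℤ ≃ ℤ × ℤ :=
    { toFun := fun q => (q.2, q.2 - q.1)
      invFun := fun p => (p.1 - p.2, p.1)
      left_inv := fun p => by simp
      right_inv := fun p => by simp }
  obtain ⟨T, hT⟩ : ∃ T : ℤ → ℤ → ℝ, T = fun k x =>
    ((ind s x : ℝ) - ind s (x - k)) * ((ind (s + r) x : ℝ) - ind (s + r) (x - k)) := ⟨_, rfl⟩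
  have h1 : Summable fun q : ℤ × ℤ => wt α q.1 * T q.1 q.2 := by
    have := e.summable_iff.2 hs
    refine this.congr fun q => ?_
    rw [hT]
    simp [e]
  have h2 : bl α (ind s) (ind (s + r)) = ∑' q : ℤ × ℤ, wt α q.1 * T q.1 q.2 := by
    unfold bl
    rw [← e.tsum_eq]
    refine tsum_congr fun q => ?_
    rw [hT]
    simp [e]
  rw [h2, h1.tsum_prod]
  unfold Gt
  refine h1.prod.tsum_le_tsum (fun k => ?_) (Gt_summ hα r)
  show ∑' x : ℤ, wt α k * T k x ≤ _
  by_cases hk : (r : ℤ) < |k|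
  · rw [if_pos hk, tsum_mul_left]
    refine mul_le_mul_of_nonneg_left ?_ (wt_nonneg α k)
    have h3 : ∑' x, T k x = ∑ x ∈ Fk s k, T k x := by
      refine tsum_eq_sum fun x hx => ?_
      rw [hT]
      simp only
      rw [ind_diff s k x hx]; simp
    rw [h3]
    calc ∑ x ∈ Fk s k, T k x ≤ ∑ x ∈ Fk s k, (1 : ℝ) := by
          refine Finset.sum_le_sum fun x _ => ?_
          rw [hT]
          exact T_le _ _ _ _ _ _
      _ = ((Fk s k).card : ℝ) := by simp
      _ ≤ 2 * |(k : ℝ)| := Fk_card s k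
  · rw [if_neg hk]
    have h3 : ∀ x, wt α k * T k x = 0 := fun x => by
      rw [hT]
      rcases T_zero s r k x (not_lt.1 hk) with h | h
      · simp [h]
      · simp [h]
    rw [tsum_congr h3, tsum_zero]

end Pool.Agent.W844.DG
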