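import Pool.Agent.W844.DG.Ind

set_option autoImplicit false
set_option linter.unusedSectionVars false
set_option linter.unusedVariables false

open Finset

namespace Pool.Agent.W844.DG

/-- `s y^(-s-1) ≤ (y-1)^(-s) - y^(-s)` -/
theorem tele1 {s y : ℝ} (hs : 0 < s) (hy : 1 < y) :
    s * y ^ (-s - 1) ≤ (y - 1) ^ (-s) - y ^ (-s) := by
  have hy0 : 0 < y := by linarith
  have hu : 0 < 1 - 1 / y := by
    have : 1 / y < 1 := by rw [div_lt_one hy0]; exact hy
    linarith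
  have h1 : y - 1 = y * (1 - 1 / y) := by field_simp
  have h2 : (y - 1) ^ (-s) = y ^ (-s) * (1 - 1 / y) ^ (-s) := by
    rw [h1, Real.mul_rpow hy0.le hu.le]
  have h3 : 1 + s / y ≤ (1 - 1 / y) ^ (-s) := by
    rw [Real.rpow_def_of_pos hu]
    have h4 : Real.log (1 - 1 / y) ≤ -(1 / y) := by
      have := Real.log_le_sub_one_of_pos hu
      linarith
    have h5 : s / y ≤ Real.log (1 - 1 / y) * -s := by
      have : s * Real.log (1 - 1 / y) ≤ s * (-(1 / y)) := mul_le_mul_of_nonneg_left h4 hs.le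
      have h6 : s * (-(1 / y)) = -(s / y) := by ring
      linarith
    have := Real.add_one_le_exp (Real.log (1 - 1 / y) * -s)
    linarith
  have h7 : y ^ (-s - 1) = y ^ (-s) / y := by
    rw [Real.rpow_sub_one hy0.ne']
  rw [h2, h7]
  have h8 : 0 < y ^ (-s) := Real.rpow_pos_of_pos hy0 _
  have h9 := mul_le_mul_of_nonneg_left h3 h8.le
  have h10 : s * (y ^ (-s) / y) = y ^ (-s) * (1 + s / y) - y ^ (-s) := by ring
  rw [h10]
  linarith

/-- the constant in the tail bound -/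
noncomputable def c0 (α : ℝ) : ℝ := 2 * 2 ^ (α - 1) / (α - 2)

theorem c0_pos {α : ℝ} (hα : 2 < α) : 0 < c0 α := by
  unfold c0
  have : 0 < α - 2 := by linarith
  positivity

theorem tele2 {α x : ℝ} (hα : 2 < α) (hx : 1 ≤ x) :
    2 * x ^ (1 - α) ≤ c0 α * (x ^ (2 - α) - (x + 1) ^ (2 - α)) := by
  have h1 := tele1 (s := α - 2) (y := x + 1) (by linarith) (by linarith)
  have e1 : -(α - 2) - 1 = 1 - α := by ring
  have e2 : -(α - 2) = 2 - α := by ring
  rw [e1, e2, add_sub_cancel_right] at h1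
  have h2 : (2 : ℝ) ^ (1 - α) * x ^ (1 - α) ≤ (x + 1) ^ (1 - α) := by
    rw [← Real.mul_rpow (by norm_num) (by linarith)]
    exact Real.rpow_le_rpow_of_nonpos (by linarith) (by linarith) (by linarith)
  have h3 : (2 : ℝ) ^ (α - 1) * (2 : ℝ) ^ (1 - α) = 1 := by
    rw [← Real.rpow_add (by norm_num)]
    simp
  have h4 : 0 < (2 : ℝ) ^ (α - 1) := by positivity
  have h5 : 0 < α - 2 := by linarith
  calc 2 * x ^ (1 - α) = 2 * (2 : ℝ) ^ (α - 1) * ((2 : ℝ) ^ (1 - α) * x ^ (1 - α)) := by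
        rw [← mul_assoc, mul_assoc 2, h3, mul_one]
    _ ≤ 2 * (2 : ℝ) ^ (α - 1) * (x + 1) ^ (1 - α) :=
        mul_le_mul_of_nonneg_left h2 (by positivity)
    _ = c0 α * ((α - 2) * (x + 1) ^ (1 - α)) := by unfold c0; field_simp
    _ ≤ c0 α * (x ^ (2 - α) - (x + 1) ^ (2 - α)) :=
        mul_le_mul_of_nonneg_left h1 (c0_pos hα).le

theorem part_sum {α : ℝ} (hα : 2 < α) (r M : ℕ) :
    ∑ n ∈ range M, (if r < n then 2 * (n : ℝ) ^ (1 - α) else 0) ≤
      c0 α * (((r : ℝ) + 1) ^ (2 - α) - ((max M (r + 1) : ℕ) : ℝ) ^ (2 - α)) := by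
  induction M with
  | zero => simp
  | succ M ih =>
    rw [Finset.sum_range_succ]
    by_cases h : r < M
    · rw [if_pos h]
      have h1 : max M (r + 1) = M := by omega
      have h2 : max (M + 1) (r + 1) = M + 1 := by omega
      rw [h1] at ih
      rw [h2]
      have h3 := tele2 hα (x := (M : ℝ)) (by
        have : 1 ≤ M := by omega
        exact_mod_cast this)
      push_cast
      have h4 := add_le_add ih h3
      refine h4.trans (le_of_eq (by ring))
    · rw [if_neg h, add_zero]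
      have h1 : max M (r + 1) = max (M + 1) (r + 1) := by omega
      rw [← h1]
      exact ih

theorem part_sum' {α : ℝ} (hα : 2 < α) (r M : ℕ) :
    ∑ n ∈ range M, (if r < n then 2 * (n : ℝ) ^ (1 - α) else 0) ≤
      c0 α * ((r : ℝ) + 1) ^ (2 - α) := by
  refine (part_sum hα r M).trans ?_
  refine mul_le_mul_of_nonneg_left ?_ (c0_pos hα).le
  have : 0 ≤ ((max M (r + 1) : ℕ) : ℝ) ^ (2 - α) := by positivity
  linarith

theorem int_tsum_le (f : ℤ → ℝ) (u : ℕ → ℝ) (B : ℝ) (hs : Summable f)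
    (h1 : ∀ n : ℕ, f n = u n) (h2 : ∀ n : ℕ, f (-((n : ℤ) + 1)) = u (n + 1))
    (hu : ∀ n, 0 ≤ u n) (hB : ∀ M, ∑ n ∈ range M, u n ≤ B) : ∑' k, f k ≤ 2 * B := by
  have s1 : Summable fun n : ℕ => f n := hs.comp_injective (i := fun n : ℕ => (n : ℤ))
    Nat.cast_injective
  have s2 : Summable fun n : ℕ => f (-((n : ℤ) + 1)) :=
    hs.comp_injective (i := fun n : ℕ => (-((n : ℤ) + 1))) (fun a b h => by
      simp only [neg_inj, add_left_inj, Nat.cast_inj] at h
      exact h)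
  rw [tsum_of_nat_of_neg_add_one s1 s2, tsum_congr h1, tsum_congr h2]
  have b1 : ∑' n, u n ≤ B := Real.tsum_le_of_sum_range_le hu hB
  have b2 : ∑' n, u (n + 1) ≤ B := by
    refine Real.tsum_le_of_sum_range_le (fun n => hu (n + 1)) fun M => ?_
    have := hB (M + 1)
    rw [Finset.sum_range_succ'] at this
    have h0 := hu 0
    linarith
  linarith

theorem wt_val {α : ℝ} (n : ℕ) (h : 0 < n) :
    wt α (n : ℤ) * (2 * (n : ℝ)) = 2 * (n : ℝ) ^ (1 - α) := by
  unfold wt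
  have h0 : (n : ℤ) ≠ 0 := by omega
  have hn : (0 : ℝ) < n := by exact_mod_cast h
  rw [if_neg h0, Int.cast_abs, Int.cast_natCast, abs_of_pos hn,
    show (1 - α) = -α + 1 by ring, Real.rpow_add hn, Real.rpow_one]
  ring

theorem gt_term {α : ℝ} (r n : ℕ) :
    (if (r : ℤ) < |(n : ℤ)| then wt α (n : ℤ) * (2 * |((n : ℤ) : ℝ)|) else 0) =
      if r < n then 2 * (n : ℝ) ^ (1 - α) else 0 := by
  have h1 : |(n : ℤ)| = (n : ℤ) := abs_of_nonneg (by positivity)
  have h2 : |((n : ℤ) : ℝ)| = (n : ℝ) := by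
    rw [Int.cast_natCast]; exact abs_of_nonneg (Nat.cast_nonneg n)
  rw [h1, h2]
  by_cases h : r < n
  · rw [if_pos h, if_pos (by exact_mod_cast h)]
    exact wt_val n (by omega)
  · rw [if_neg h, if_neg (by exact_mod_cast h)]

theorem Gt_le {α : ℝ} (hα : 2 < α) (r : ℕ) :
    Gt α r ≤ 2 * (c0 α * ((r : ℝ) + 1) ^ (2 - α)) := by
  unfold Gt
  refine int_tsum_le _ (fun n => if r < n then 2 * (n : ℝ) ^ (1 - α) else 0) _ (Gt_summ hα r)
    (fun n => gt_term r n) (fun n => ?_) (fun n => ?_) (part_sum' hα r)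
  · have h1 := gt_term (α := α) r (n + 1)
    have e1 : |(-((n : ℤ) + 1))| = |((n + 1 : ℕ) : ℤ)| := by rw [abs_neg]; push_cast; rfl
    have e2 : wt α (-((n : ℤ) + 1)) = wt α ((n + 1 : ℕ) : ℤ) := by rw [wt_neg]; push_cast; rfl
    have e3 : |((-((n : ℤ) + 1) : ℤ) : ℝ)| = |(((n + 1 : ℕ) : ℤ) : ℝ)| := by
      rw [← Int.cast_abs, ← Int.cast_abs, e1]
    rw [e1, e2, e3]
    exact h1
  · show 0 ≤ (if r < n then 2 * (n : ℝ) ^ (1 - α) else 0)
    split_ifs
    · positivity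
    · exact le_rfl

theorem tele3 {t y : ℝ} (ht : 0 < t) (ht1 : t ≤ 1) (hy : 1 ≤ y) :
    t * y ^ (t - 1) ≤ y ^ t - (y - 1) ^ t := by
  have hy0 : 0 < y := by linarith
  have hu : 0 ≤ 1 - 1 / y := by
    have : 1 / y ≤ 1 := by rw [div_le_one hy0]; exact hy
    linarith
  have h1 : y - 1 = y * (1 - 1 / y) := by field_simp
  have h2 : (y - 1) ^ t = y ^ t * (1 - 1 / y) ^ t := by
    rw [h1, Real.mul_rpow hy0.le hu]
  have h3 : (1 - 1 / y) ^ t ≤ 1 - t / y := by
    have := rpow_one_add_le_one_add_mul_self (s := -(1 / y)) (p := t) (by linarith) ht.le ht1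
    have e : 1 + t * -(1 / y) = 1 - t / y := by ring
    rw [e] at this
    exact this
  have h7 : y ^ (t - 1) = y ^ t / y := by
    rw [Real.rpow_sub_one hy0.ne']
  rw [h2, h7]
  have h8 : 0 < y ^ t := Real.rpow_pos_of_pos hy0 _
  have h9 := mul_le_mul_of_nonneg_left h3 h8.le
  have h10 : t * (y ^ t / y) = y ^ t - y ^ t * (1 - t / y) := by ring
  rw [h10]
  linarith

theorem S_le {α : ℝ} (hα : 2 < α) (hα3 : α < 3) (M : ℕ) :
    ∑ d ∈ range M, ((d : ℝ) + 1) ^ (2 - α) ≤ (M : ℝ) ^ (3 - α) / (3 - α) := by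
  have ht : 0 < 3 - α := by linarith
  induction M with
  | zero =>
    simp
    positivity
  | succ M ih =>
    rw [Finset.sum_range_succ]
    have h1 := tele3 (t := 3 - α) (y := (M : ℝ) + 1) ht (by linarith) (by
      have : (0 : ℝ) ≤ M := Nat.cast_nonneg M
      linarith)
    rw [add_sub_cancel_right, show 3 - α - 1 = 2 - α by ring] at h1
    have h2 : ((M : ℝ) + 1) ^ (2 - α) ≤
        (((M : ℝ) + 1) ^ (3 - α) - (M : ℝ) ^ (3 - α)) / (3 - α) := by
      rw [le_div_iff₀ ht]; linarith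
    push_cast
    have h3 := add_le_add ih h2
    refine h3.trans (le_of_eq (by ring))

end Pool.Agent.W844.DG
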