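import Pool.Agent.W844.DG.Cfg
import Pool.Agent.W844.DG.CR
import Pool.Agent.W844.DG.Tail
import Pool.Agent.W844.DG.Comb

set_option autoImplicit false
set_option linter.unusedSectionVars false
set_option linter.unusedVariables false

open Finset

namespace Pool.Agent.W844.DG

theorem bl_ind_dd {α : ℝ} (hα : 2 < α) (s t : ℕ) : bl α (ind s) (ind t) ≤ Gt α (dd s t) := by
  rcases le_total s t with h | h
  · obtain ⟨r, rfl⟩ := Nat.exists_eq_add_of_le h
    have e : dd s (s + r) = r := by unfold dd; omega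
    rw [e]
    exact bl_ind hα s r
  · obtain ⟨r, rfl⟩ := Nat.exists_eq_add_of_le h
    have e : dd (t + r) t = r := by unfold dd; omega
    rw [e, bl_comm]
    exact bl_ind hα t r

/-- the decreasing bound for the interaction of two steps -/
noncomputable def af (α : ℝ) (r : ℕ) : ℝ := 2 * (c0 α * ((r : ℝ) + 1) ^ (2 - α))

theorem af_anti {α : ℝ} (hα : 2 < α) : Antitone (af α) := by
  intro m n hmn
  unfold af
  have h1 : ((n : ℝ) + 1) ^ (2 - α) ≤ ((m : ℝ) + 1) ^ (2 - α) := by
    refine Real.rpow_le_rpow_of_nonpos (by positivity) ?_ (by linarith)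
    have : (m : ℝ) ≤ n := by exact_mod_cast hmn
    linarith
  have := mul_le_mul_of_nonneg_left h1 (c0_pos hα).le
  linarith

theorem af_nonneg {α : ℝ} (hα : 2 < α) (r : ℕ) : 0 ≤ af α r := by
  unfold af
  have := c0_pos hα
  positivity

/-- the profile with steps at the given points -/
def prof (h : ℕ) (s : Fin h → ℕ) : ℤ → ℤ := ∑ j : Fin h, ind (s j)

theorem prof_fs (h : ℕ) (s : Fin h → ℕ) : Fs (prof h s) := by
  unfold prof
  exact (bl_sum (show (1 : ℝ) < 2 by norm_num) Finset.univ (fun j => ind (s j))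
    (fun j _ => ind_fs _) (ind_fs 0)).1

theorem prof_zero (h : ℕ) (s : Fin h → ℕ) : prof h s 0 = h := by
  unfold prof
  rw [Finset.sum_apply]
  simp [ind]

theorem prof_mem (h N : ℕ) (s : Fin h → ℕ) (hs : ∀ j, s j ≤ N) : prof h s ∈ Cfg N := by
  intro x hx
  unfold prof
  rw [Finset.sum_apply]
  refine Finset.sum_eq_zero fun j _ => ?_
  unfold ind
  rw [if_neg]
  have := hs j
  omega

theorem bl_prof {α : ℝ} (hα : 2 < α) (h : ℕ) (s t : Fin h → ℕ) :
    bl α (prof h s) (prof h t) ≤ ∑ j, ∑ i, af α (dd (s i) (t j)) := by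
  have h1 : bl α (prof h s) (prof h t) = ∑ j, ∑ i, bl α (ind (s i)) (ind (t j)) := by
    have e1 := (bl_sum (show 1 < α by linarith) Finset.univ (fun j => ind (s j)) (χ := prof h t)
      (fun j _ => ind_fs _) (prof_fs h t)).2
    have e2 : ∀ i, bl α (ind (s i)) (prof h t) = ∑ j, bl α (ind (s i)) (ind (t j)) := by
      intro i
      rw [bl_comm]
      have := (bl_sum (show 1 < α by linarith) Finset.univ (fun j => ind (t j)) (χ := ind (s i))
        (fun j _ => ind_fs _) (ind_fs _)).2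
      unfold prof
      rw [this]
      exact Finset.sum_congr rfl fun j _ => bl_comm _ _ _
    rw [show bl α (prof h s) (prof h t) = bl α (∑ j : Fin h, ind (s j)) (prof h t) from rfl, e1,
      Finset.sum_congr rfl fun i _ => e2 i, Finset.sum_comm]
  rw [h1]
  exact Finset.sum_le_sum fun j _ => Finset.sum_le_sum fun i _ =>
    (bl_ind_dd hα _ _).trans (Gt_le hα _)

/-- the exponential moment of the overlap -/
theorem overlap {α β K : ℝ} (hα : 2 < α) (hβ : 0 < β) (hK : 0 ≤ K) (h L : ℕ) (hh : 0 < h)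
    (hL : 0 < L)
    (hS : (h : ℝ) * ∑ r ∈ range (h * L), ((r : ℝ) + 1) ^ (2 - α) ≤ K * L)
    (ω : Fin h → Fin L) :
    ∑ ω' : Fin h → Fin L, Real.exp (2 * (β * bl α (prof h fun i => i * L + ω i)
      (prof h fun i => i * L + ω' i))) ≤
    (L : ℝ) ^ h * Real.exp (Real.exp (2 * β * (8 * c0 α + 4 * c0 α * K)) *
      (8 * β * c0 α * K)) := by
  have hc := c0_pos hα
  have hL0 : (0 : ℝ) < L := by exact_mod_cast hL
  have hh1 : (1 : ℝ) ≤ h := by exact_mod_cast hh
  obtain ⟨S, hSd⟩ : ∃ S : ℝ, S = ∑ r ∈ range (h * L), ((r : ℝ) + 1) ^ (2 - α) := ⟨_, rfl⟩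
  rw [← hSd] at hS
  have hS0 : 0 ≤ S := by
    rw [hSd]; exact Finset.sum_nonneg fun r _ => by positivity
  have hSa : ∑ r ∈ range (h * L), af α r = 2 * c0 α * S := by
    rw [hSd, Finset.mul_sum]
    refine Finset.sum_congr rfl fun r _ => ?_
    unfold af; ring
  obtain ⟨g, hg⟩ : ∃ g : ℕ → ℝ, g = fun s' => 2 * β * ∑ i : Fin h, af α (dd (i * L + ω i) s') :=
    ⟨_, rfl⟩
  obtain ⟨w, hw⟩ : ∃ w : ℕ → ℕ, w = fun i => if hi : i < h then (ω ⟨i, hi⟩ : ℕ) else 0 := ⟨_, rfl⟩
  have hwL : ∀ i, w i < L := fun i => by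
    rw [hw]; simp only
    split_ifs
    · exact (ω _).2
    · exact hL
  have hwω : ∀ i : Fin h, w i = ω i := fun i => by
    rw [hw]; simp
  have hgr : ∀ s', g s' = 2 * β * ∑ i ∈ range h, af α (dd (i * L + w i) s') := by
    intro s'
    rw [hg, Finset.sum_range]
    simp only [hwω]
  have hg0 : ∀ s', 0 ≤ g s' := fun s' => by
    rw [hgr]
    have := Finset.sum_nonneg fun (i : ℕ) (_ : i ∈ range h) => af_nonneg hα (dd (i * L + w i) s')
    positivity
  have hgC : ∀ s', s' < h * L → g s' ≤ 2 * β * (8 * c0 α + 4 * c0 α * K) := by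
    intro s' hs'
    rw [hgr]
    refine mul_le_mul_of_nonneg_left ?_ (by positivity)
    have h1 := spread_bound (af α) (af_anti hα) (af_nonneg hα) h L hL w hwL s' hs'
    rw [hSa] at h1
    have h2 : af α 0 = 2 * c0 α := by unfold af; simp
    rw [h2] at h1
    have h3 : S ≤ K * L := by
      have : 1 * S ≤ h * S := mul_le_mul_of_nonneg_right hh1 hS0
      linarith
    have h4 : (L : ℝ) * ∑ i ∈ range h, af α (dd (i * L + w i) s') ≤
        L * (8 * c0 α + 4 * c0 α * K) := by
      have : 4 * c0 α * S ≤ 4 * c0 α * (K * L) := mul_le_mul_of_nonneg_left h3 (by positivity)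
      nlinarith
    exact le_of_mul_le_mul_left h4 hL0
  have hgS : ∑ s ∈ range (h * L), g s ≤ 8 * β * c0 α * K * L := by
    have e1 : ∑ s ∈ range (h * L), g s =
        2 * β * ∑ i ∈ range h, ∑ s ∈ range (h * L), af α (dd (i * L + w i) s) := by
      rw [Finset.sum_congr rfl fun s _ => hgr s, ← Finset.mul_sum, Finset.sum_comm]
    have e2 : ∀ i ∈ range h, ∑ s ∈ range (h * L), af α (dd (i * L + w i) s) ≤
        2 * (2 * c0 α * S) := by
      intro i hi
      have hi' := Finset.mem_range.1 hi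
      have h1 : i * L + w i < h * L := by
        have h2 := hwL i
        have : (i + 1) * L ≤ h * L := Nat.mul_le_mul_right _ hi'
        rw [add_mul, one_mul] at this
        omega
      have h3 := dist_sum (af α) (af_nonneg hα) (h * L) (i * L + w i) h1
      rw [hSa] at h3
      refine le_trans (le_of_eq ?_) h3
      refine Finset.sum_congr rfl fun s _ => ?_
      congr 1
      unfold dd; omega
    have e3 := Finset.sum_le_sum e2
    rw [Finset.sum_const, Finset.card_range, nsmul_eq_mul] at e3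
    rw [e1]
    calc 2 * β * ∑ i ∈ range h, ∑ s ∈ range (h * L), af α (dd (i * L + w i) s)
        ≤ 2 * β * (h * (2 * (2 * c0 α * S))) := mul_le_mul_of_nonneg_left e3 (by positivity)
      _ = 8 * β * c0 α * (h * S) := by ring
      _ ≤ 8 * β * c0 α * (K * L) := mul_le_mul_of_nonneg_left hS (by positivity)
      _ = _ := by ring
  have hmain := exp_moment g h L hL _ (fun s _ => hg0 s) hgC
  calc ∑ ω' : Fin h → Fin L, Real.exp (2 * (β * bl α (prof h fun i => i * L + ω i)
        (prof h fun i => i * L + ω' i)))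
      ≤ ∑ ω' : Fin h → Fin L, Real.exp (∑ j : Fin h, g (j * L + ω' j)) := by
        refine Finset.sum_le_sum fun ω' _ => Real.exp_le_exp.2 ?_
        have h1 := bl_prof hα h (fun i => i * L + ω i) (fun i => i * L + ω' i)
        have h2 := mul_le_mul_of_nonneg_left h1 (show 0 ≤ 2 * β by positivity)
        rw [hg]
        simp only
        rw [← Finset.mul_sum]
        refine le_trans (le_of_eq (by ring)) h2
    _ ≤ _ := hmain
    _ ≤ _ := by
        refine mul_le_mul_of_nonneg_left (Real.exp_le_exp.2 ?_) (by positivity)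
        rw [div_mul_eq_mul_div, div_le_iff₀ hL0]
        calc Real.exp (2 * β * (8 * c0 α + 4 * c0 α * K)) * ∑ s ∈ range (h * L), g s
            ≤ Real.exp (2 * β * (8 * c0 α + 4 * c0 α * K)) * (8 * β * c0 α * K * L) :=
              mul_le_mul_of_nonneg_left hgS (Real.exp_pos _).le
          _ = _ := by ring

/-- the constant of the main bound -/
noncomputable def cc (α β K : ℝ) : ℝ :=
  Real.exp (Real.exp (2 * β * (8 * c0 α + 4 * c0 α * K)) * (8 * β * c0 α * K))

theorem cc_pos (α β K : ℝ) : 0 < cc α β K := Real.exp_pos _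

theorem main_bound {α β K : ℝ} (hα : 2 < α) (hβ : 0 < β) (hK : 0 ≤ K) (N h L : ℕ) (hh : 0 < h)
    (hL : 0 < L) (hN : h * L ≤ N + 1)
    (hS : (h : ℝ) * ∑ r ∈ range (h * L), ((r : ℝ) + 1) ^ (2 - α) ≤ K * L) :
    (h : ℝ) ^ 2 / cc α β K * ∑' φ : Cfg N, Real.exp (-(β * en α φ)) ≤
      ∑' φ : Cfg N, Real.exp (-(β * en α φ)) * (φ.1 0 : ℝ) ^ 2 := by
  have hα1 : 1 < α := by linarith
  have hin : ∀ (ω : Fin h → Fin L) (j : Fin h), (j : ℕ) * L + ω j ≤ N := by
    intro ω j
    have hj := j.2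
    have hu := (ω j).2
    have : ((j : ℕ) + 1) * L ≤ h * L := Nat.mul_le_mul_right _ hj
    rw [add_mul, one_mul] at this
    omega
  have hs := summ_cfg hα1 hβ N
  have s0 : Summable fun φ : Cfg N => Real.exp (-(β * en α φ)) := by
    refine Summable.of_nonneg_of_le (fun φ => (Real.exp_pos _).le) (fun φ => ?_) hs
    have h1 := Real.exp_pos (-(β * en α φ))
    nlinarith [sq_nonneg (φ.1 0 : ℝ)]
  have s1 : Summable fun φ : Cfg N => Real.exp (-(β * en α φ)) * (φ.1 0 : ℝ) := by
    refine Summable.of_norm_bounded hs (fun φ => ?_)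
    rw [Real.norm_eq_abs, abs_mul, abs_of_pos (Real.exp_pos _)]
    refine mul_le_mul_of_nonneg_left ?_ (Real.exp_pos _).le
    nlinarith [sq_abs (φ.1 0 : ℝ), sq_nonneg (|(φ.1 0 : ℝ)| - 1), abs_nonneg (φ.1 0 : ℝ)]
  have s2 : Summable fun φ : Cfg N => Real.exp (-(β * en α φ)) * (φ.1 0 : ℝ) ^ 2 := by
    refine Summable.of_nonneg_of_le (fun φ => by positivity) (fun φ => ?_) hs
    have h1 := Real.exp_pos (-(β * en α φ))
    nlinarith
  have : Nonempty (Fin L) := ⟨⟨0, hL⟩⟩
  refine cr (G := Cfg N) (fun φ => β * en α φ) (fun φ ψ => β * bl α φ ψ) (fun φ => (φ.1 0 : ℝ))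
    (Ω := Fin h → Fin L)
    (fun ω => ⟨prof h fun i => i * L + ω i, prof_mem h N _ (hin ω)⟩) (h : ℝ) (cc α β K)
    (cc_pos α β K) ?_ ?_ ?_ ?_ ?_ s0 s1 s2 ?_
  · intro a b
    show (((a.1 - b.1) 0 : ℤ) : ℝ) = _
    rw [Pi.sub_apply]; push_cast; rfl
  · intro g
    show β * en α (-g.1) = β * en α g.1
    rw [en_neg]
  · intro g
    show (((-g.1) 0 : ℤ) : ℝ) = _
    rw [Pi.neg_apply]; push_cast; rfl
  · intro g a b
    show β * en α (g.1 - a.1) + β * en α (g.1 - b.1) - β * en α g.1 =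
      β * en α (g.1 - (a.1 + b.1)) - 2 * (β * bl α a.1 b.1)
    have := en_pol hα1 (Cfg.fs g.2) (Cfg.fs a.2) (Cfg.fs b.2)
    linear_combination β * this
  · intro ω
    show ((prof h (fun i => i * L + ω i) 0 : ℤ) : ℝ) = h
    rw [prof_zero]; push_cast; rfl
  · rw [Fintype.card_fun, Fintype.card_fin, Fintype.card_fin]
    have h1 : ∀ ω : Fin h → Fin L, ∑ ω' : Fin h → Fin L,
        Real.exp (2 * (β * bl α (prof h fun i => i * L + ω i) (prof h fun i => i * L + ω' i))) ≤
        (L : ℝ) ^ h * cc α β K := fun ω => overlap hα hβ hK h L hh hL hS ω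
    calc _ ≤ ∑ ω : Fin h → Fin L, (L : ℝ) ^ h * cc α β K := Finset.sum_le_sum fun ω _ => h1 ω
      _ = cc α β K * (((L ^ h : ℕ) : ℝ)) ^ 2 := by
        rw [Finset.sum_const, Finset.card_univ, Fintype.card_fun, Fintype.card_fin,
          Fintype.card_fin, nsmul_eq_mul]
        push_cast
        ring

end Pool.Agent.W844.DG
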